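import Mathlib

set_option autoImplicit false

/-! `R_k`-independent sets are `C_k^{k-1}`-independent (low degrees): definitions and exact task
statements (helper176). -/

namespace Pool.Agent.H176RC

open Finset

variable {n : ℕ}

/-- row of the pair `ij` in the rigidity matrix of the placement `p` in `ℝ^k` -/
def rowR (k : ℕ) (p : Fin n → Fin k → ℝ) (i j : Fin n) : Fin n → Fin k → ℝ :=
  fun v a => if v = i then p i a - p j a else if v = j then p j a - p i a else 0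

/-- the vector `D_ij` -/
def Dv (k : ℕ) (q : Fin n → Fin 2 → ℝ) (i j : Fin n) : Fin (k + 1) → ℝ :=
  fun a => (q i 0 - q j 0) ^ (k - (a : ℕ)) * (q i 1 - q j 1) ^ (a : ℕ)

/-- row of the pair `ij` in the `C_k^{k-1}`-cofactor matrix of the placement `q` in `ℝ^2` -/
def rowC (k : ℕ) (q : Fin n → Fin 2 → ℝ) (i j : Fin n) : Fin n → Fin (k + 1) → ℝ :=
  fun v a => if v = i then Dv k q i j a else if v = j then -Dv k q i j a else 0

/-- edge sets: sets of pairs `(i,j)` with `i < j` -/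
def Edges (E : Finset (Fin n × Fin n)) : Prop := ∀ e ∈ E, e.1 < e.2

def RInd (k : ℕ) (E : Finset (Fin n × Fin n)) (p : Fin n → Fin k → ℝ) : Prop :=
  LinearIndependent ℝ (fun e : ↥E => rowR k p e.1.1 e.1.2)

def CInd (k : ℕ) (E : Finset (Fin n × Fin n)) (q : Fin n → Fin 2 → ℝ) : Prop :=
  LinearIndependent ℝ (fun e : ↥E => rowC k q e.1.1 e.1.2)

/-- the edge joining `a` and `b` -/
def ed (a b : Fin n) : Fin n × Fin n := (min a b, max a b)

/-- the edges that avoid `v` -/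
def del (E : Finset (Fin n × Fin n)) (v : Fin n) : Finset (Fin n × Fin n) :=
  E.filter (fun e => e.1 ≠ v ∧ e.2 ≠ v)

/-- the neighbours of `v` -/
def nb (E : Finset (Fin n × Fin n)) (v : Fin n) : Finset (Fin n) :=
  univ.filter (fun w => ed v w ∈ E)

/-- general position in `ℝ^k` -/
def GP (k : ℕ) (p : Fin n → Fin k → ℝ) : Prop :=
  ∀ S : Finset (Fin n), S.card = k + 1 → AffineIndependent ℝ (fun i : ↥S => p i)

/-- K: the nowhere zero stress of `K_{k+2}` -/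
def S_K : Prop := ∀ (k n : ℕ) (p : Fin n → Fin k → ℝ), GP k p → ∀ W : Finset (Fin n),
    W.card = k + 2 → ∃ ω : Fin n → Fin n → ℝ, (∀ i ∈ W, ∀ j ∈ W, i ≠ j → ω i j ≠ 0) ∧
      ∑ e ∈ (W ×ˢ W).filter (fun e => e.1 < e.2), ω e.1 e.2 • rowR k p e.1 e.2 = 0

/-- RS2: removing a vertex of degree k+2 (from K) -/
def S_RS2 : Prop := ∀ (k n : ℕ), 1 ≤ k → ∀ (E : Finset (Fin n × Fin n)), Edges E →
    ∀ p : Fin n → Fin k → ℝ, GP k p → RInd k E p → ∀ v : Fin n, (nb E v).card = k + 2 →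
    ∃ a ∈ nb E v, ∃ b ∈ nb E v, a ≠ b ∧ ed a b ∉ E ∧ RInd k (insert (ed a b) (del E v)) p

/-- RS3: removing a vertex of degree k+3 (from K) -/
def S_RS3 : Prop := ∀ (k n : ℕ), 1 ≤ k → ∀ (E : Finset (Fin n × Fin n)), Edges E →
    ∀ p : Fin n → Fin k → ℝ, GP k p → RInd k E p → ∀ v : Fin n, (nb E v).card = k + 3 →
    ∃ a ∈ nb E v, ∃ b ∈ nb E v, ∃ c ∈ nb E v, ∃ d ∈ nb E v,
      a ≠ b ∧ a ≠ c ∧ a ≠ d ∧ b ≠ c ∧ b ≠ d ∧ c ≠ d ∧ ed a b ∉ E ∧ ed c d ∉ E ∧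
      RInd k (insert (ed a b) (insert (ed c d) (del E v))) p

/-- MR: independence is the nonvanishing of a polynomial (rigidity) -/
def S_MR : Prop := ∀ (k n : ℕ) (E : Finset (Fin n × Fin n)) (p₀ : Fin n → Fin k → ℝ),
    RInd k E p₀ → ∃ P : MvPolynomial (Fin n × Fin k) ℝ,
      MvPolynomial.eval (fun x => p₀ x.1 x.2) P ≠ 0 ∧
      ∀ p : Fin n → Fin k → ℝ, MvPolynomial.eval (fun x => p x.1 x.2) P ≠ 0 → RInd k E p

/-- MC: the same for the cofactor matrix, with rational coefficients -/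
def S_MC : Prop := ∀ (k n : ℕ) (E : Finset (Fin n × Fin n)) (q₀ : Fin n → Fin 2 → ℝ),
    CInd k E q₀ → ∃ P : MvPolynomial (Fin n × Fin 2) ℚ,
      MvPolynomial.aeval (fun x => q₀ x.1 x.2) P ≠ 0 ∧
      ∀ q : Fin n → Fin 2 → ℝ, MvPolynomial.aeval (fun x => q x.1 x.2) P ≠ 0 → CInd k E q

/-- NZ: finitely many nonzero polynomials have a common nonroot -/
def S_NZ : Prop := ∀ (σ ι : Type) [Finite σ] [Finite ι] (P : ι → MvPolynomial σ ℝ),
    (∀ i, P i ≠ 0) → ∃ x : σ → ℝ, ∀ i, MvPolynomial.eval x (P i) ≠ 0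

/-- GP: generic placements in general position (from MR, NZ) -/
def S_GP : Prop := ∀ (k n : ℕ) (E : Finset (Fin n × Fin n)),
    (∃ p : Fin n → Fin k → ℝ, RInd k E p) → ∃ p : Fin n → Fin k → ℝ, RInd k E p ∧ GP k p

/-- C0: adding a vertex of degree at most k+1 (from MC, NZ) -/
def S_C0 : Prop := ∀ (k n : ℕ) (E : Finset (Fin n × Fin n)), Edges E → ∀ v : Fin n,
    (nb E v).card ≤ k + 1 → (∃ q, CInd k (del E v) q) → ∃ q, CInd k E q

/-- C1: 1-extension (from MC, NZ) -/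
def S_C1 : Prop := ∀ (k n : ℕ), 1 ≤ k → ∀ (E : Finset (Fin n × Fin n)), Edges E → ∀ v : Fin n,
    (nb E v).card = k + 2 → ∀ a ∈ nb E v, ∀ b ∈ nb E v, a ≠ b → ed a b ∉ E →
    (∃ q, CInd k (insert (ed a b) (del E v)) q) → ∃ q, CInd k E q

/-- CX: X-replacement (from MC, NZ) -/
def S_CX : Prop := ∀ (k n : ℕ), 1 ≤ k → ∀ (E : Finset (Fin n × Fin n)), Edges E → ∀ v : Fin n,
    (nb E v).card = k + 3 → ∀ a ∈ nb E v, ∀ b ∈ nb E v, ∀ c ∈ nb E v, ∀ d ∈ nb E v,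
    a ≠ b → a ≠ c → a ≠ d → b ≠ c → b ≠ d → c ≠ d → ed a b ∉ E → ed c d ∉ E →
    (∃ q, CInd k (insert (ed a b) (insert (ed c d) (del E v))) q) → ∃ q, CInd k E q

/-- MX: Maxwell's count (from K, GP) -/
def S_MX : Prop := ∀ (k n : ℕ) (E : Finset (Fin n × Fin n)), Edges E →
    (∃ p : Fin n → Fin k → ℝ, RInd k E p) →
    k ≤ (univ.filter (fun v => (nb E v).Nonempty)).card →
    2 * E.card + k * (k + 1) ≤ 2 * k * (univ.filter (fun v => (nb E v).Nonempty)).card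

/-- number of vertices of degree at least k+4 -/
def big (k : ℕ) (E : Finset (Fin n × Fin n)) : ℕ :=
  (univ.filter (fun v => k + 4 ≤ (nb E v).card)).card

/-- MAIN: induction (from GP, RS2, RS3, C0, C1, CX, MX) -/
def S_MAIN : Prop := ∀ (k n : ℕ), 1 ≤ k → ∀ (E : Finset (Fin n × Fin n)), Edges E →
    ((k : ℤ) - 4) * (big k E : ℤ) < k * (k + 1) →
    (∃ p : Fin n → Fin k → ℝ, RInd k E p) → ∃ q, CInd k E q

/-- FIN: final statement for generic placements (from MAIN, MC) -/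
def S_FIN : Prop := ∀ (k n : ℕ), 1 ≤ k → ∀ (E : Finset (Fin n × Fin n)), (∀ e ∈ E, e.1 < e.2) →
    ((k : ℤ) - 4) * ((univ.filter (fun v : Fin n =>
        k + 4 ≤ (E.filter (fun e => e.1 = v ∨ e.2 = v)).card)).card : ℤ) < k * (k + 1) →
    ∀ (p : Fin n → Fin k → ℝ) (q : Fin n → Fin 2 → ℝ),
    AlgebraicIndependent ℚ (fun x : Fin n × Fin k => p x.1 x.2) →
    AlgebraicIndependent ℚ (fun x : Fin n × Fin 2 => q x.1 x.2) →
    LinearIndependent ℝ (fun (e : ↥E) (v : Fin n) (a : Fin k) =>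
      if v = e.1.1 then p e.1.1 a - p e.1.2 a
      else if v = e.1.2 then p e.1.2 a - p e.1.1 a else (0 : ℝ)) →
    LinearIndependent ℝ (fun (e : ↥E) (v : Fin n) (a : Fin (k + 1)) =>
      if v = e.1.1 then
        (q e.1.1 0 - q e.1.2 0) ^ (k - (a : ℕ)) * (q e.1.1 1 - q e.1.2 1) ^ (a : ℕ)
      else if v = e.1.2 then
        -((q e.1.1 0 - q e.1.2 0) ^ (k - (a : ℕ)) * (q e.1.1 1 - q e.1.2 1) ^ (a : ℕ))
      else (0 : ℝ))

end Pool.Agent.H176RC
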