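import Mathlib
import Pool.Agent.H176RC.Defs

set_option autoImplicit false

/-! Task C0: adding a vertex of degree at most `k+1` keeps cofactor independence. -/

namespace Pool.Agent.H176RC

open Finset

namespace C0h

variable {n : ℕ}

theorem cInd_iff (k : ℕ) (E : Finset (Fin n × Fin n)) (q : Fin n → Fin 2 → ℝ) :
    CInd k E q ↔ ∀ g : Fin n × Fin n → ℝ, ∑ e ∈ E, g e • rowC k q e.1 e.2 = 0 →
      ∀ e ∈ E, g e = 0 :=
  linearIndepOn_finset_iff (R := ℝ) (v := fun e : Fin n × Fin n => rowC k q e.1 e.2) (s := E)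

theorem mem_nb (E : Finset (Fin n × Fin n)) (v w : Fin n) : w ∈ nb E v ↔ ed v w ∈ E := by
  unfold nb
  rw [mem_filter]
  exact ⟨fun h => h.2, fun h => ⟨mem_univ _, h⟩⟩

/-- the other end of an edge at `v` -/
def oth (v : Fin n) (e : Fin n × Fin n) : Fin n := if e.1 = v then e.2 else e.1

/-- the sign of the entry of an edge at `v` -/
def sgn (k : ℕ) (v : Fin n) (e : Fin n × Fin n) : ℝ := if e.1 = v then 1 else -(-1) ^ k

theorem sgn_ne (k : ℕ) (v : Fin n) (e : Fin n × Fin n) : sgn k v e ≠ 0 := by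
  unfold sgn
  split_ifs
  · exact one_ne_zero
  · exact neg_ne_zero.2 (pow_ne_zero _ (by norm_num))

/-- entries of a row at `v` -/
theorem row_at (k : ℕ) (q : Fin n → Fin 2 → ℝ) (v : Fin n) (e : Fin n × Fin n)
    (hv : e.1 = v ∨ e.2 = v) (hx : q v 0 - q (oth v e) 0 ≠ 0) (a : Fin (k + 1)) :
    rowC k q e.1 e.2 v a = sgn k v e * (q v 0 - q (oth v e) 0) ^ k *
      ((q v 1 - q (oth v e) 1) / (q v 0 - q (oth v e) 0)) ^ (a : ℕ) := by
  have ha : (a : ℕ) ≤ k := by omega
  have hpow : (q v 0 - q (oth v e) 0) ^ k =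
      (q v 0 - q (oth v e) 0) ^ (k - (a : ℕ)) * (q v 0 - q (oth v e) 0) ^ (a : ℕ) := by
    rw [← pow_add]; congr 1; omega
  by_cases h1 : e.1 = v
  · have ho : oth v e = e.2 := by simp [oth, h1]
    have hs : sgn k v e = 1 := by simp [sgn, h1]
    rw [ho] at hx hpow
    rw [ho, hs, hpow, div_pow]
    have : rowC k q e.1 e.2 v a = (q v 0 - q e.2 0) ^ (k - (a : ℕ)) *
        (q v 1 - q e.2 1) ^ (a : ℕ) := by
      simp [rowC, h1, Dv]
    rw [this]
    have hx' : (q v 0 - q e.2 0) ^ (a : ℕ) ≠ 0 := pow_ne_zero _ hx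
    field_simp
  · have h2 : e.2 = v := by tauto
    have ho : oth v e = e.1 := by simp [oth, h1]
    have hs : sgn k v e = -(-1) ^ k := by simp [sgn, h1]
    rw [ho] at hx hpow
    rw [ho, hs, hpow, div_pow]
    have hne : v ≠ e.1 := fun h => h1 h.symm
    have : rowC k q e.1 e.2 v a = -((q e.1 0 - q v 0) ^ (k - (a : ℕ)) *
        (q e.1 1 - q v 1) ^ (a : ℕ)) := by
      simp [rowC, hne, h2, Dv]
    rw [this]
    have hx' : (q v 0 - q e.1 0) ^ (a : ℕ) ≠ 0 := pow_ne_zero _ hx
    have e1 : (q e.1 0 - q v 0) ^ (k - (a : ℕ)) =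
        (-1) ^ (k - (a : ℕ)) * (q v 0 - q e.1 0) ^ (k - (a : ℕ)) := by
      rw [← mul_pow]; congr 1; ring
    have e2 : (q e.1 1 - q v 1) ^ (a : ℕ) = (-1) ^ (a : ℕ) * (q v 1 - q e.1 1) ^ (a : ℕ) := by
      rw [← mul_pow]; congr 1; ring
    have e3 : ((-1 : ℝ)) ^ k = (-1) ^ (k - (a : ℕ)) * (-1) ^ (a : ℕ) := by
      rw [← pow_add]; congr 1; omega
    rw [e1, e2, e3]
    field_simp

theorem row_off (k : ℕ) (q : Fin n → Fin 2 → ℝ) (v : Fin n) (e : Fin n × Fin n)
    (h1 : e.1 ≠ v) (h2 : e.2 ≠ v) (a : Fin (k + 1)) : rowC k q e.1 e.2 v a = 0 := by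
  simp [rowC, h1.symm, h2.symm]

theorem oth_mem (E : Finset (Fin n × Fin n)) (hE : Edges E) (v : Fin n) (e : Fin n × Fin n)
    (he : e ∈ E) (hv : e.1 = v ∨ e.2 = v) : oth v e ∈ nb E v := by
  have hlt := hE e he
  rw [mem_nb]
  unfold ed
  by_cases h1 : e.1 = v
  · have ho : oth v e = e.2 := by simp [oth, h1]
    rw [ho, ← h1, min_eq_left hlt.le, max_eq_right hlt.le]
    exact he
  · have h2 : e.2 = v := by tauto
    have ho : oth v e = e.1 := by simp [oth, h1]
    rw [ho, ← h2, min_eq_right hlt.le, max_eq_left hlt.le]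
    exact he

theorem oth_inj (v : Fin n) (e e' : Fin n × Fin n) (he : e.1 < e.2) (he' : e'.1 < e'.2)
    (hv : e.1 = v ∨ e.2 = v) (hv' : e'.1 = v ∨ e'.2 = v) (h : oth v e = oth v e') : e = e' := by
  obtain ⟨a, b⟩ := e
  obtain ⟨c, d⟩ := e'
  simp only [oth] at h
  simp only at he he' hv hv'
  split_ifs at h with h1 h2 h2
  · subst h1; subst h2; simp [h]
  · have h3 : d = v := by tauto
    subst h1; subst h3; subst h
    exact absurd (he.trans he') (lt_irrefl _)
  · have h3 : b = v := by tauto
    subst h2; subst h3; subst h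
    exact absurd (he.trans he') (lt_irrefl _)
  · have h3 : b = v := by tauto
    have h4 : d = v := by tauto
    subst h3; subst h4; subst h; rfl

end C0h

open C0h in
theorem C0 (hMC : S_MC) (hNZ : S_NZ) : S_C0 := by
  intro k n E hE v hcard hex
  obtain ⟨q₀, hq₀⟩ := hex
  obtain ⟨P, hP0, hP⟩ := hMC k n (del E v) q₀ hq₀
  classical
  -- the polynomial conditions
  let X : Fin n → Fin 2 → MvPolynomial (Fin n × Fin 2) ℝ := fun i a => MvPolynomial.X (i, a)
  let Q : Option (Fin n × Fin n) → MvPolynomial (Fin n × Fin 2) ℝ := fun o =>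
    match o with
    | none => MvPolynomial.map (algebraMap ℚ ℝ) P
    | some w => if w.1 = w.2 then (if w.1 = v then 1 else X v 0 - X w.1 0)
        else if w.1 = v ∨ w.2 = v then 1
        else (X v 0 - X w.1 0) * (X v 1 - X w.2 1) - (X v 1 - X w.1 1) * (X v 0 - X w.2 0)
  have hevP : ∀ x : Fin n × Fin 2 → ℝ,
      MvPolynomial.eval x (MvPolynomial.map (algebraMap ℚ ℝ) P) = MvPolynomial.aeval x P := by
    intro x
    rw [MvPolynomial.eval_map, MvPolynomial.aeval_def]
  have hQ : ∀ o, Q o ≠ 0 := by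
    intro o
    cases o with
    | none =>
        intro h0
        apply hP0
        rw [← hevP]
        have : MvPolynomial.map (algebraMap ℚ ℝ) P = 0 := h0
        rw [this, map_zero]
    | some w =>
        obtain ⟨w, w'⟩ := w
        show (if w = w' then (if w = v then 1 else X v 0 - X w 0)
          else if w = v ∨ w' = v then 1
          else (X v 0 - X w 0) * (X v 1 - X w' 1) - (X v 1 - X w 1) * (X v 0 - X w' 0)) ≠
            (0 : MvPolynomial (Fin n × Fin 2) ℝ)
        by_cases h1 : w = w'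
        · rw [if_pos h1]
          by_cases h2 : w = v
          · rw [if_pos h2]; exact one_ne_zero
          · rw [if_neg h2]
            apply sub_ne_zero.2
            intro h
            have := MvPolynomial.X_injective h
            simp only [Prod.mk.injEq, and_true] at this
            exact h2 this.symm
        · rw [if_neg h1]
          by_cases h2 : w = v ∨ w' = v
          · rw [if_pos h2]; exact one_ne_zero
          · rw [if_neg h2]
            push Not at h2
            intro h
            have hev := congrArg (MvPolynomial.eval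
              (fun x : Fin n × Fin 2 => if x = (w, 0) ∨ x = (w', 1) then (1 : ℝ) else 0)) h
            simp only [X, map_sub, map_mul, MvPolynomial.eval_X, map_zero] at hev
            have c1 : ¬ (((v, 0) : Fin n × Fin 2) = (w, 0) ∨ ((v, 0) : Fin n × Fin 2) = (w', 1)) := by
              simp [h2.1.symm]
            have c2 : ¬ (((v, 1) : Fin n × Fin 2) = (w, 0) ∨ ((v, 1) : Fin n × Fin 2) = (w', 1)) := by
              simp [h2.2.symm]
            have c3 : ¬ (((w, 1) : Fin n × Fin 2) = (w, 0) ∨ ((w, 1) : Fin n × Fin 2) = (w', 1)) := by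
              simp [h1]
            have c4 : ¬ (((w', 0) : Fin n × Fin 2) = (w, 0) ∨ ((w', 0) : Fin n × Fin 2) = (w', 1)) := by
              simp [Ne.symm h1]
            rw [if_neg c1, if_neg c2, if_neg c3, if_neg c4] at hev
            simp only [true_or, or_true, if_true] at hev
            norm_num at hev
  obtain ⟨x, hx⟩ := hNZ (Fin n × Fin 2) (Option (Fin n × Fin n)) Q hQ
  let q : Fin n → Fin 2 → ℝ := fun i a => x (i, a)
  refine ⟨q, ?_⟩
  have hdel : CInd k (del E v) q := by
    apply hP
    have := hx none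
    rw [show Q none = MvPolynomial.map (algebraMap ℚ ℝ) P from rfl, hevP] at this
    exact this
  have hx0 : ∀ w, w ≠ v → q v 0 - q w 0 ≠ 0 := by
    intro w hw
    have := hx (some (w, w))
    have e : Q (some (w, w)) = X v 0 - X w 0 := by
      show (if w = w then (if w = v then 1 else X v 0 - X w 0) else _) = _
      rw [if_pos rfl, if_neg hw]
    rw [e] at this
    simpa [X, q] using this
  have hcr : ∀ w w', w ≠ w' → w ≠ v → w' ≠ v →
      (q v 0 - q w 0) * (q v 1 - q w' 1) - (q v 1 - q w 1) * (q v 0 - q w' 0) ≠ 0 := by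
    intro w w' h1 h2 h3
    have := hx (some (w, w'))
    have e : Q (some (w, w')) =
        (X v 0 - X w 0) * (X v 1 - X w' 1) - (X v 1 - X w 1) * (X v 0 - X w' 0) := by
      show (if w = w' then (if w = v then 1 else X v 0 - X w 0)
          else if w = v ∨ w' = v then 1
          else (X v 0 - X w 0) * (X v 1 - X w' 1) - (X v 1 - X w 1) * (X v 0 - X w' 0)) = _
      rw [if_neg h1, if_neg (by tauto)]
    rw [e] at this
    simpa [X, q] using this
  have hnbv : ∀ w ∈ nb E v, w ≠ v := by
    intro w hw h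
    subst h
    rw [mem_nb] at hw
    have h3 : (ed w w).1 < (ed w w).2 := hE _ hw
    simp only [ed, min_self, max_self, lt_self_iff_false] at h3
  -- the slopes
  let t : Fin n → ℝ := fun w => (q v 1 - q w 1) / (q v 0 - q w 0)
  have htinj : Set.InjOn t (nb E v : Set (Fin n)) := by
    intro w hw w' hw' h
    by_contra hne
    have a1 := hnbv w hw
    have a2 := hnbv w' hw'
    have := hcr w w' hne a1 a2
    apply this
    have h' : (q v 1 - q w 1) / (q v 0 - q w 0) = (q v 1 - q w' 1) / (q v 0 - q w' 0) := h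
    rw [div_eq_div_iff (hx0 w a1) (hx0 w' a2)] at h'
    linarith
  rw [cInd_iff]
  intro g hg
  have hstar : ∀ e ∈ E, (e.1 = v ∨ e.2 = v) → g e = 0 := by
    intro e₀ he₀ hv₀
    have hw₀ := oth_mem E hE v e₀ he₀ hv₀
    let p : Polynomial ℝ := Lagrange.basis (nb E v) t (oth v e₀)
    have hdeg : p.natDegree < k + 1 := by
      have h1 : p.degree = ((nb E v).card - 1 : ℕ) := Lagrange.degree_basis htinj hw₀
      rw [Polynomial.natDegree_eq_of_degree_eq_some h1]
      have : 0 < (nb E v).card := card_pos.2 ⟨_, hw₀⟩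
      omega
    have hsum : ∀ e ∈ E, ∑ a : Fin (k + 1), p.coeff (a : ℕ) * (g e * rowC k q e.1 e.2 v a) =
        if e = e₀ then g e₀ * (sgn k v e₀ * (q v 0 - q (oth v e₀) 0) ^ k) else 0 := by
      intro e he
      by_cases hv : e.1 = v ∨ e.2 = v
      · have hw := oth_mem E hE v e he hv
        have hne := hx0 _ (hnbv _ hw)
        have h1 : ∑ a : Fin (k + 1), p.coeff (a : ℕ) * (g e * rowC k q e.1 e.2 v a) =
            g e * (sgn k v e * (q v 0 - q (oth v e) 0) ^ k) * p.eval (t (oth v e)) := by
          rw [Polynomial.eval_eq_sum_range' hdeg, ← Fin.sum_univ_eq_sum_range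
            (fun i => p.coeff i * t (oth v e) ^ i), mul_sum]
          refine sum_congr rfl fun a _ => ?_
          rw [row_at k q v e hv hne a]
          ring
        rw [h1]
        by_cases hee : e = e₀
        · rw [if_pos hee, hee]
          have : p.eval (t (oth v e₀)) = 1 := Lagrange.eval_basis_self htinj hw₀
          rw [this, mul_one]
        · rw [if_neg hee]
          have hoo : oth v e₀ ≠ oth v e := fun h =>
            hee (oth_inj v e e₀ (hE e he) (hE e₀ he₀) hv hv₀ h.symm)
          have : p.eval (t (oth v e)) = 0 := Lagrange.eval_basis_of_ne hoo hw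
          rw [this, mul_zero]
      · push Not at hv
        have hee : e ≠ e₀ := by
          rintro rfl
          tauto
        rw [if_neg hee]
        refine sum_eq_zero fun a _ => ?_
        rw [row_off k q v e hv.1 hv.2 a]
        ring
    have htot : ∑ e ∈ E, ∑ a : Fin (k + 1), p.coeff (a : ℕ) * (g e * rowC k q e.1 e.2 v a) = 0 := by
      rw [sum_comm]
      refine sum_eq_zero fun a _ => ?_
      rw [← mul_sum]
      have h2 := congrFun (congrFun hg v) a
      simp only [Finset.sum_apply, Pi.smul_apply, smul_eq_mul, Pi.zero_apply] at h2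
      rw [h2, mul_zero]
    rw [sum_congr rfl hsum, sum_ite_eq' E e₀, if_pos he₀] at htot
    rcases mul_eq_zero.1 htot with h | h
    · exact h
    · exact absurd h (mul_ne_zero (sgn_ne k v e₀) (pow_ne_zero _ (hx0 _ (hnbv _ hw₀))))
  have hrest : ∑ e ∈ del E v, g e • rowC k q e.1 e.2 = 0 := by
    rw [← hg]
    unfold del
    rw [sum_filter]
    refine sum_congr rfl fun e he => ?_
    split_ifs with h
    · rfl
    · rw [hstar e he (by tauto), zero_smul]
  intro e he
  by_cases hv : e.1 = v ∨ e.2 = v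
  · exact hstar e he hv
  · push Not at hv
    exact (cInd_iff k (del E v) q).1 hdel g hrest e (by simp [del, he, hv.1, hv.2])

end Pool.Agent.H176RC
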