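import Pool.Agent.H176RC.Defs

/-! C1: 1-extension in the cofactor matroid. -/

set_option autoImplicit false

namespace Pool.Agent.H176RC

open Finset

namespace C1aux

variable {n : ℕ}

lemma cInd_iff (k : ℕ) (E : Finset (Fin n × Fin n)) (q : Fin n → Fin 2 → ℝ) :
    CInd k E q ↔ ∀ c : Fin n × Fin n → ℝ, (∑ e ∈ E, c e • rowC k q e.1 e.2 = 0) →
      ∀ e ∈ E, c e = 0 := by
  unfold CInd
  rw [Fintype.linearIndependent_iff]
  constructor
  · intro h c hc e he
    have h1 := h (fun e => c e.1) (by
      rw [← hc, ← Finset.sum_coe_sort E (fun e => c e • rowC k q e.1 e.2)]) ⟨e, he⟩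
    exact h1
  · intro h g hg i
    classical
    have h1 := h (fun e => if he : e ∈ E then g ⟨e, he⟩ else 0) (by
      rw [← Finset.sum_coe_sort E, ← hg]
      refine Finset.sum_congr rfl fun e _ => ?_
      simp) i.1 i.2
    simpa using h1

lemma Dv_symm (k : ℕ) (q : Fin n → Fin 2 → ℝ) (i j : Fin n) (a : Fin (k + 1)) :
    Dv k q j i a = (-1) ^ k * Dv k q i j a := by
  unfold Dv
  have h1 : q j 0 - q i 0 = (-1) * (q i 0 - q j 0) := by ring
  have h2 : q j 1 - q i 1 = (-1) * (q i 1 - q j 1) := by ring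
  have h3 : ((-1 : ℝ)) ^ k = (-1) ^ (k - (a : ℕ)) * (-1) ^ (a : ℕ) := by
    rw [← pow_add]; congr 1; have := a.2; omega
  rw [h1, h2, mul_pow, mul_pow, h3]
  ring

lemma rowC_symm (k : ℕ) (q : Fin n → Fin 2 → ℝ) (i j : Fin n) (hij : i ≠ j) :
    rowC k q j i = ((-1 : ℝ)) ^ (k + 1) • rowC k q i j := by
  funext v a
  simp only [rowC, Pi.smul_apply, smul_eq_mul]
  by_cases h1 : v = i
  · subst h1
    rw [if_neg hij, if_pos rfl, if_pos rfl, Dv_symm k q v j]
    ring
  · by_cases h2 : v = j
    · subst h2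
      rw [if_pos rfl, if_neg h1, if_pos rfl, Dv_symm k q i v]
      ring
    · rw [if_neg h1, if_neg h2, if_neg h2, if_neg h1]
      ring

/-- the sign -/
noncomputable def sg (k : ℕ) (v w : Fin n) : ℝ := if v ≤ w then 1 else (-1) ^ (k + 1)

lemma sg_ne (k : ℕ) (v w : Fin n) : sg k v w ≠ 0 := by
  unfold sg
  split_ifs
  · exact one_ne_zero
  · exact pow_ne_zero _ (by norm_num)

lemma rowC_ed (k : ℕ) (q : Fin n → Fin 2 → ℝ) (v w : Fin n) (hvw : v ≠ w) :
    rowC k q (ed v w).1 (ed v w).2 = sg k v w • rowC k q v w := by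
  unfold ed sg
  by_cases h : v ≤ w
  · rw [if_pos h]; simp [min_eq_left h, max_eq_right h]
  · have h' : w ≤ v := le_of_lt (not_le.1 h)
    rw [if_neg h]
    simp only [min_eq_right h', max_eq_left h']
    exact rowC_symm k q v w hvw

lemma sum_split (E : Finset (Fin n × Fin n)) (hE : Edges E) (v : Fin n) {M : Type}
    [AddCommMonoid M] (f : Fin n × Fin n → M) :
    ∑ e ∈ E, f e = ∑ e ∈ del E v, f e + ∑ w ∈ nb E v, f (ed v w) := by
  classical
  rw [← Finset.sum_filter_add_sum_filter_not E (fun e => e.1 ≠ v ∧ e.2 ≠ v)]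
  have h1 : E.filter (fun e => ¬ (e.1 ≠ v ∧ e.2 ≠ v)) = (nb E v).image (ed v) := by
    ext e
    simp only [Finset.mem_filter, Finset.mem_image, nb, Finset.mem_univ, true_and]
    constructor
    · rintro ⟨he, hv⟩
      have hlt := hE e he
      by_cases h1 : e.1 = v
      · refine ⟨e.2, ?_, ?_⟩
        · have : ed v e.2 = e := by
            unfold ed; rw [← h1, min_eq_left hlt.le, max_eq_right hlt.le]
          rw [this]; exact he
        · unfold ed; rw [← h1, min_eq_left hlt.le, max_eq_right hlt.le]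
      · have h2 : e.2 = v := by
          by_contra h2; exact hv ⟨h1, h2⟩
        refine ⟨e.1, ?_, ?_⟩
        · have : ed v e.1 = e := by
            unfold ed; rw [← h2, min_eq_right hlt.le, max_eq_left hlt.le]
          rw [this]; exact he
        · unfold ed; rw [← h2, min_eq_right hlt.le, max_eq_left hlt.le]
    · rintro ⟨w, hw, rfl⟩
      refine ⟨hw, ?_⟩
      rintro ⟨h1, h2⟩
      unfold ed at h1 h2
      simp only at h1 h2
      rcases le_total v w with h | h
      · exact h1 (min_eq_left h)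
      · exact h2 (max_eq_left h)
  rw [h1, Finset.sum_image]
  · rfl
  · intro w _ w' _ hww
    unfold ed at hww
    rw [Prod.ext_iff] at hww
    obtain ⟨h2, h3⟩ := hww
    simp only at h2 h3
    rcases le_total v w with h | h <;> rcases le_total v w' with h' | h'
    · rw [max_eq_right h, max_eq_right h'] at h3; exact h3
    · rw [min_eq_left h, min_eq_right h'] at h2
      rw [max_eq_right h, max_eq_left h'] at h3
      rw [h3, h2]
    · rw [min_eq_right h, min_eq_left h'] at h2
      rw [max_eq_left h, max_eq_right h'] at h3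
      rw [h2, h3]
    · rw [min_eq_right h, min_eq_right h'] at h2; exact h2

lemma vander (k : ℕ) {ι : Type} [DecidableEq ι] (s : Finset ι) (hs : s.card = k + 1)
    (x y γ : ι → ℝ) (hxy : ∀ i ∈ s, ∀ j ∈ s, i ≠ j → x i * y j - x j * y i ≠ 0)
    (hγ : ∀ a : Fin (k + 1), ∑ i ∈ s, γ i * (x i ^ (k - (a : ℕ)) * y i ^ (a : ℕ)) = 0) :
    ∀ i ∈ s, γ i = 0 := by
  set φ : ↥s ≃ Fin (k + 1) := s.equivFinOfCardEq hs with hφ
  set X : Fin (k + 1) → ℝ := fun i => x (φ.symm i) with hX
  set Y : Fin (k + 1) → ℝ := fun i => y (φ.symm i) with hY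
  have hdet : (Matrix.projVandermonde Y X).det ≠ 0 := by
    rw [Matrix.det_projVandermonde]
    refine Finset.prod_ne_zero_iff.2 fun i _ => Finset.prod_ne_zero_iff.2 fun j hj => ?_
    have hij : i ≠ j := (Finset.mem_Ioi.1 hj).ne
    have h1 := hxy (φ.symm i) (φ.symm i).2 (φ.symm j) (φ.symm j).2 (by
      intro h
      exact hij (φ.symm.injective (Subtype.ext h)))
    intro h2
    apply h1
    simp only [hX, hY] at h2
    linarith
  have hvec : Matrix.vecMul (fun i => γ (φ.symm i)) (Matrix.projVandermonde Y X) = 0 := by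
    funext a
    have h1 := hγ a
    rw [← Finset.sum_coe_sort, ← Equiv.sum_comp φ.symm] at h1
    simp only [Matrix.vecMul, dotProduct, Pi.zero_apply]
    rw [← h1]
    refine Finset.sum_congr rfl fun i _ => ?_
    simp only [Matrix.projVandermonde_apply, hX, hY]
    have h2 : (a.rev : ℕ) = k - (a : ℕ) := by rw [Fin.val_rev]; omega
    rw [h2]
    ring
  have h0 := Matrix.eq_zero_of_vecMul_eq_zero hdet hvec
  intro i hi
  have h1 := congrFun h0 (φ ⟨i, hi⟩)
  simpa using h1

/-- three points not on a line -/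
def col (q : Fin n → Fin 2 → ℝ) (i j l : Fin n) : ℝ :=
  (q i 0 - q j 0) * (q i 1 - q l 1) - (q i 0 - q l 0) * (q i 1 - q j 1)

/-- the polynomial of `col` -/
noncomputable def colP (i j l : Fin n) : MvPolynomial (Fin n × Fin 2) ℝ :=
  (MvPolynomial.X (i, 0) - MvPolynomial.X (j, 0)) * (MvPolynomial.X (i, 1) - MvPolynomial.X (l, 1))
  - (MvPolynomial.X (i, 0) - MvPolynomial.X (l, 0)) *
    (MvPolynomial.X (i, 1) - MvPolynomial.X (j, 1))

lemma eval_colP (x : Fin n × Fin 2 → ℝ) (i j l : Fin n) :
    MvPolynomial.eval x (colP i j l) = col (fun w c => x (w, c)) i j l := by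
  simp [colP, col]

lemma colP_ne (i j l : Fin n) (hij : i ≠ j) (hil : i ≠ l) (hjl : j ≠ l) : colP i j l ≠ 0 := by
  intro h
  have h1 := eval_colP (fun y : Fin n × Fin 2 => if y = (j, 0) then 1 else if y = (l, 1) then 1
    else (0 : ℝ)) i j l
  rw [h, map_zero] at h1
  simp [col, Prod.ext_iff, hij, hil, hjl, hjl.symm] at h1

/-- placements for an independent set with no three collinear points -/
lemma exists_gen (hMC : S_MC) (hNZ : S_NZ) (k : ℕ) (E : Finset (Fin n × Fin n))
    (h : ∃ q, CInd k E q) : ∃ q, CInd k E q ∧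
      ∀ i j l, i ≠ j → i ≠ l → j ≠ l → col q i j l ≠ 0 := by
  classical
  obtain ⟨q₀, hq₀⟩ := h
  obtain ⟨P, hP0, hP⟩ := hMC k n E q₀ hq₀
  obtain ⟨x, hx⟩ := hNZ (Fin n × Fin 2) (Option (Fin n × Fin n × Fin n))
    (fun o => match o with
      | none => MvPolynomial.map (algebraMap ℚ ℝ) P
      | some (i, j, l) => if i ≠ j ∧ i ≠ l ∧ j ≠ l then colP i j l else 1) (by
      intro o
      match o with
      | none =>
        simp only
        intro h0
        apply hP0
        rw [MvPolynomial.aeval_def, ← MvPolynomial.eval_map, h0, map_zero]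
      | some (i, j, l) =>
        simp only
        split_ifs with h
        · exact colP_ne i j l h.1 h.2.1 h.2.2
        · exact one_ne_zero)
  refine ⟨fun w c => x (w, c), ?_, ?_⟩
  · apply hP
    have h1 := hx none
    simp only at h1
    rw [MvPolynomial.aeval_def, ← MvPolynomial.eval_map]
    exact h1
  · intro i j l h1 h2 h3
    have h4 := hx (some (i, j, l))
    simp only at h4
    rw [if_pos ⟨h1, h2, h3⟩, eval_colP] at h4
    exact h4

/-- rows of `del E v` do not involve the vertex `v` -/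
lemma rowC_update (k : ℕ) (q : Fin n → Fin 2 → ℝ) (v : Fin n) (z : Fin 2 → ℝ) (i j : Fin n)
    (hi : i ≠ v) (hj : j ≠ v) : rowC k (Function.update q v z) i j = rowC k q i j := by
  funext w a
  simp only [rowC, Dv, Function.update_of_ne hi, Function.update_of_ne hj]

/-- choice of the parameter -/
lemma exists_t (q : Fin n → Fin 2 → ℝ) (hq : ∀ i j l, i ≠ j → i ≠ l → j ≠ l → col q i j l ≠ 0)
    (a b : Fin n) : ∃ t : ℝ, t ≠ 0 ∧ t - 1 ≠ 0 ∧ ∀ w w' : Fin n, w ≠ w' → w ≠ a → w' ≠ a →
      (q a 0 + t * (q b 0 - q a 0) - q w 0) * (q a 1 + t * (q b 1 - q a 1) - q w' 1) -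
      (q a 0 + t * (q b 0 - q a 0) - q w' 0) * (q a 1 + t * (q b 1 - q a 1) - q w 1) ≠ 0 := by
  classical
  set β : Fin n × Fin n → ℝ := fun e => (q b 0 - q a 0) * (q a 1 - q e.2 1) +
    (q a 0 - q e.1 0) * (q b 1 - q a 1) - (q b 0 - q a 0) * (q a 1 - q e.1 1) -
    (q a 0 - q e.2 0) * (q b 1 - q a 1) with hβ
  obtain ⟨t, ht⟩ := Infinite.exists_notMem_finset
    ({0, 1} ∪ (Finset.univ : Finset (Fin n × Fin n)).image
      (fun e => -(col q a e.1 e.2) / β e) : Finset ℝ)
  simp only [Finset.mem_union, Finset.mem_insert, Finset.mem_singleton, Finset.mem_image,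
    Finset.mem_univ, true_and, not_or, not_exists] at ht
  obtain ⟨⟨h0, h1⟩, h2⟩ := ht
  refine ⟨t, h0, sub_ne_zero.2 h1, ?_⟩
  intro w w' hww hwa hw'a hcon
  have h3 : col q a w w' + t * β (w, w') = 0 := by
    rw [← hcon]
    simp only [col, hβ]
    ring
  have h4 : β (w, w') ≠ 0 := by
    intro h5
    rw [h5, mul_zero, add_zero] at h3
    exact hq a w w' (Ne.symm hwa) (Ne.symm hw'a) hww h3
  apply h2 (w, w')
  simp only
  rw [div_eq_iff h4]
  linarith

end C1aux

open C1aux in
/-- C1: 1-extension -/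
theorem C1 (hMC : S_MC) (hNZ : S_NZ) : S_C1 := by
  classical
  intro k n hk E hE v hcard a ha b hb hab habE hF
  obtain ⟨q, hq, hgen⟩ := exists_gen hMC hNZ k _ hF
  obtain ⟨t, ht0, ht1, ht⟩ := exists_t q hgen a b
  set z : Fin 2 → ℝ := fun c => q a c + t * (q b c - q a c) with hz
  have hvnb : v ∉ nb E v := by
    intro h
    have h1 : ed v v ∈ E := by simpa [nb] using h
    have h2 := hE _ h1
    simp [ed] at h2
  have hnv : ∀ w ∈ nb E v, w ≠ v := fun w hw h => hvnb (h ▸ hw)
  have hav := hnv a ha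
  have hbv := hnv b hb
  refine ⟨Function.update q v z, ?_⟩
  set q' := Function.update q v z with hq'
  have hq'v : q' v = z := Function.update_self _ _ _
  have hq'w : ∀ w, w ≠ v → q' w = q w := fun w hw => Function.update_of_ne hw _ _
  rw [cInd_iff] at hq ⊢
  intro c hc
  rw [sum_split E hE v] at hc
  set C : Fin n → ℝ := fun w => c (ed v w) * sg k v w with hC
  have hc1 : ∑ e ∈ del E v, c e • rowC k q e.1 e.2 + ∑ w ∈ nb E v, C w • rowC k q' v w = 0 := by
    rw [← hc]
    congr 1
    · refine Finset.sum_congr rfl fun e he => ?_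
      have h1 := (Finset.mem_filter.1 he).2
      rw [hq', rowC_update k q v z e.1 e.2 h1.1 h1.2]
    · refine Finset.sum_congr rfl fun w hw => ?_
      rw [rowC_ed k q' v w (Ne.symm (hnv w hw)), smul_smul]
  -- the columns of `v`
  have hcv : ∀ α : Fin (k + 1), ∑ w ∈ nb E v, C w * Dv k q' v w α = 0 := by
    intro α
    have h1 := congrFun (congrFun hc1 v) α
    simp only [Pi.add_apply, Finset.sum_apply, Pi.smul_apply, smul_eq_mul, Pi.zero_apply] at h1
    have h2 : ∑ e ∈ del E v, c e * rowC k q e.1 e.2 v α = 0 := by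
      refine Finset.sum_eq_zero fun e he => ?_
      have h3 := (Finset.mem_filter.1 he).2
      unfold rowC
      rw [if_neg (Ne.symm h3.1), if_neg (Ne.symm h3.2), mul_zero]
    rw [h2, zero_add] at h1
    rw [← h1]
    refine Finset.sum_congr rfl fun w hw => ?_
    unfold rowC
    rw [if_pos rfl]
  have hDa : ∀ α, Dv k q' v a α = t ^ k * Dv k q b a α := by
    intro α
    unfold Dv
    rw [hq'v, hq'w a hav]
    simp only [hz]
    have h1 : t ^ k = t ^ (k - (α : ℕ)) * t ^ (α : ℕ) := by
      rw [← pow_add]; congr 1; have := α.2; omega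
    rw [h1, add_sub_cancel_left, add_sub_cancel_left, mul_pow, mul_pow]
    ring
  have hDb : ∀ α, Dv k q' v b α = (t - 1) ^ k * Dv k q b a α := by
    intro α
    unfold Dv
    rw [hq'v, hq'w b hbv]
    simp only [hz]
    have h1 : (t - 1) ^ k = (t - 1) ^ (k - (α : ℕ)) * (t - 1) ^ (α : ℕ) := by
      rw [← pow_add]; congr 1; have := α.2; omega
    have h2 : q a 0 + t * (q b 0 - q a 0) - q b 0 = (t - 1) * (q b 0 - q a 0) := by ring
    have h3 : q a 1 + t * (q b 1 - q a 1) - q b 1 = (t - 1) * (q b 1 - q a 1) := by ring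
    rw [h1, h2, h3, mul_pow, mul_pow]
    ring
  -- Vandermonde
  have hcard' : ((nb E v).erase b).card = k + 1 := by
    rw [Finset.card_erase_of_mem hb, hcard]; rfl
  have htk : t ^ k ≠ 0 := pow_ne_zero _ ht0
  have htk1 : (t - 1) ^ k ≠ 0 := pow_ne_zero _ ht1
  have hmain := vander k ((nb E v).erase b) hcard' (fun w => q' v 0 - q' w 0)
    (fun w => q' v 1 - q' w 1)
    (fun w => if w = a then C a + C b * ((t - 1) ^ k / t ^ k) else C w) (by
      intro i hi j hj hij
      have hi1 := hnv i (Finset.mem_of_mem_erase hi)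
      have hj1 := hnv j (Finset.mem_of_mem_erase hj)
      have hib := Finset.ne_of_mem_erase hi
      have hjb := Finset.ne_of_mem_erase hj
      rw [hq'v, hq'w i hi1, hq'w j hj1]
      simp only [hz]
      by_cases hia : i = a
      · subst hia
        have h1 := hgen i b j hab hij (Ne.symm hjb)
        intro h2
        apply h1
        have h3 : t * (-(col q i b j)) = 0 := by
          rw [← h2]; simp only [col]; ring
        rcases mul_eq_zero.1 h3 with h4 | h4
        · exact absurd h4 ht0
        · linarith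
      · by_cases hja : j = a
        · subst hja
          have h1 := hgen j b i hab (Ne.symm hij) (Ne.symm hib)
          intro h2
          apply h1
          have h3 : t * (col q j b i) = 0 := by
            rw [← h2]; simp only [col]; ring
          rcases mul_eq_zero.1 h3 with h4 | h4
          · exact absurd h4 ht0
          · exact h4
        · exact ht i j hij hia hja) (by
      intro α
      have h1 := hcv α
      rw [← Finset.add_sum_erase _ _ hb, ← Finset.add_sum_erase _ _
        (Finset.mem_erase.2 ⟨hab, ha⟩)] at h1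
      rw [← Finset.add_sum_erase _ _ (Finset.mem_erase.2 ⟨hab, ha⟩)]
      rw [← h1]
      simp only [if_pos]
      have h2 : ∑ x ∈ ((nb E v).erase b).erase a,
          (if x = a then C a + C b * ((t - 1) ^ k / t ^ k) else C x) *
            ((q' v 0 - q' x 0) ^ (k - (α : ℕ)) * (q' v 1 - q' x 1) ^ (α : ℕ)) =
          ∑ x ∈ ((nb E v).erase b).erase a, C x * Dv k q' v x α := by
        refine Finset.sum_congr rfl fun x hx => ?_
        rw [if_neg (Finset.ne_of_mem_erase hx)]
        rfl
      rw [h2]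
      have h3 : (q' v 0 - q' a 0) ^ (k - (α : ℕ)) * (q' v 1 - q' a 1) ^ (α : ℕ) =
        Dv k q' v a α := rfl
      rw [h3, hDa, hDb]
      field_simp
      ring)
  have hCw : ∀ w ∈ nb E v, w ≠ a → w ≠ b → C w = 0 := by
    intro w hw hwa hwb
    have h1 := hmain w (Finset.mem_erase.2 ⟨hwb, hw⟩)
    rwa [if_neg hwa] at h1
  have hCab : C a * t ^ k + C b * (t - 1) ^ k = 0 := by
    have h1 := hmain a (Finset.mem_erase.2 ⟨hab, ha⟩)
    simp only [if_pos] at h1
    field_simp at h1
    linarith
  -- the star is a multiple of the row of `ab`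
  set κ : ℝ := -((-1) ^ k * C a * t ^ k) with hκ
  have hstar : ∑ w ∈ nb E v, C w • rowC k q' v w = κ • rowC k q a b := by
    rw [← Finset.add_sum_erase _ _ hb, ← Finset.add_sum_erase _ _
        (Finset.mem_erase.2 ⟨hab, ha⟩)]
    rw [Finset.sum_eq_zero (fun w hw => by
      have h1 := Finset.ne_of_mem_erase hw
      have h2 := Finset.mem_of_mem_erase hw
      rw [hCw w (Finset.mem_of_mem_erase h2) h1 (Finset.ne_of_mem_erase h2), zero_smul]),
      add_zero]
    funext w α
    simp only [Pi.add_apply, Pi.smul_apply, smul_eq_mul, rowC]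
    have hDab : Dv k q a b α = (-1) ^ k * Dv k q b a α := Dv_symm k q b a α
    have hsq : ((-1 : ℝ)) ^ k * (-1) ^ k = 1 := by
      rw [← mul_pow]; norm_num
    by_cases h1 : w = v
    · subst h1
      rw [if_pos rfl, if_pos rfl, if_neg (Ne.symm hav), if_neg (Ne.symm hbv), hDa, hDb]
      linear_combination (Dv k q b a α) * hCab
    · rw [if_neg h1, if_neg h1]
      by_cases h2 : w = a
      · subst h2
        rw [if_neg hab, if_pos rfl, if_pos rfl, hDa, hDab, hκ]
        linear_combination (C w * t ^ k * Dv k q b w α) * hsq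
      · by_cases h3 : w = b
        · subst h3
          rw [if_pos rfl, if_neg h2, if_neg h2, if_pos rfl, hDb, hDab, hκ]
          linear_combination (-(C a * t ^ k * Dv k q w a α)) * hsq - (Dv k q w a α) * hCab
        · rw [if_neg h3, if_neg h2, if_neg h2, if_neg h3]
          ring
  rw [hstar] at hc1
  -- relation for the reduced graph
  have hnotin : ed a b ∉ del E v := fun h => habE (Finset.mem_filter.1 h).1
  have hfin := hq (fun e => if e = ed a b then κ * (sg k a b)⁻¹ else c e) (by
    rw [Finset.sum_insert hnotin, if_pos rfl, rowC_ed k q a b hab, smul_smul, mul_assoc,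
      inv_mul_cancel₀ (sg_ne k a b), mul_one]
    refine (add_comm _ _).trans (Eq.trans ?_ hc1)
    congr 1
    refine Finset.sum_congr rfl fun e he => ?_
    have hne : e ≠ ed a b := fun h => hnotin (h ▸ he)
    rw [if_neg hne])
  have hdel : ∀ e ∈ del E v, c e = 0 := by
    intro e he
    have hne : e ≠ ed a b := fun h => hnotin (h ▸ he)
    have h1 := hfin e (Finset.mem_insert_of_mem he)
    rwa [if_neg hne] at h1
  have hκ0 : κ = 0 := by
    have h1 := hfin _ (Finset.mem_insert_self _ _)
    simp only [if_pos] at h1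
    rcases mul_eq_zero.1 h1 with h2 | h2
    · exact h2
    · exact absurd h2 (inv_ne_zero (sg_ne k a b))
  have hCa : C a = 0 := by
    have h1 : (-1 : ℝ) ^ k * C a * t ^ k = 0 := by rw [hκ] at hκ0; linarith
    rcases mul_eq_zero.1 h1 with h2 | h2
    · rcases mul_eq_zero.1 h2 with h3 | h3
      · exact absurd h3 (pow_ne_zero _ (by norm_num))
      · exact h3
    · exact absurd h2 htk
  have hCb : C b = 0 := by
    rw [hCa, zero_mul, zero_add] at hCab
    rcases mul_eq_zero.1 hCab with h2 | h2
    · exact h2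
    · exact absurd h2 htk1
  have hall : ∀ w ∈ nb E v, c (ed v w) = 0 := by
    intro w hw
    have h1 : C w = 0 := by
      by_cases h2 : w = a
      · rw [h2]; exact hCa
      · by_cases h3 : w = b
        · rw [h3]; exact hCb
        · exact hCw w hw h2 h3
    rcases mul_eq_zero.1 h1 with h2 | h2
    · exact h2
    · exact absurd h2 (sg_ne k v w)
  intro e he
  by_cases h1 : e ∈ del E v
  · exact hdel e h1
  · have h2 : ¬ (e.1 ≠ v ∧ e.2 ≠ v) := fun h => h1 (Finset.mem_filter.2 ⟨he, h⟩)
    have hlt := hE e he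
    by_cases h3 : e.1 = v
    · have h4 : ed v e.2 = e := by
        unfold ed; rw [← h3, min_eq_left hlt.le, max_eq_right hlt.le]
      have h5 : e.2 ∈ nb E v := by
        simp only [nb, Finset.mem_filter, Finset.mem_univ, true_and]; rw [h4]; exact he
      rw [← h4]; exact hall _ h5
    · have h3' : e.2 = v := by
        by_contra h; exact h2 ⟨h3, h⟩
      have h4 : ed v e.1 = e := by
        unfold ed; rw [← h3', min_eq_right hlt.le, max_eq_left hlt.le]
      have h5 : e.1 ∈ nb E v := by
        simp only [nb, Finset.mem_filter, Finset.mem_univ, true_and]; rw [h4]; exact he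
      rw [← h4]; exact hall _ h5

end Pool.Agent.H176RC
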