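import Pool.Agent.H176RC.Defs

set_option autoImplicit false

/-! CX: X-replacement for the cofactor matrix. -/

namespace Pool.Agent.H176RC

open Finset

namespace CXx

variable {n : ℕ}

theorem pow_scale (k : ℕ) (m : Fin (k + 1)) (r x y : ℝ) :
    (r * x) ^ (k - (m : ℕ)) * (r * y) ^ (m : ℕ) = r ^ k * (x ^ (k - (m : ℕ)) * y ^ (m : ℕ)) := by
  have h : (m : ℕ) ≤ k := by omega
  have h2 : r ^ k = r ^ (k - (m : ℕ)) * r ^ (m : ℕ) := by
    rw [← pow_add, Nat.sub_add_cancel h]
  rw [mul_pow, mul_pow, h2]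
  ring

/-- the sign of the ordered pair `i, j` -/
def sg (k : ℕ) (i j : Fin n) : ℝ := if i < j then 1 else (-1) ^ (k + 1)

theorem sg_sq (k : ℕ) (i j : Fin n) : sg k i j * sg k i j = 1 := by
  unfold sg
  split_ifs
  · ring
  · rw [← mul_pow]
    norm_num

theorem sg_ne (k : ℕ) (i j : Fin n) : sg k i j ≠ 0 := by
  intro h
  have := sg_sq k i j
  rw [h] at this
  norm_num at this

theorem dv_swap (k : ℕ) (q : Fin n → Fin 2 → ℝ) (i j : Fin n) (m : Fin (k + 1)) :
    Dv k q j i m = (-1) ^ k * Dv k q i j m := by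
  unfold Dv
  rw [← pow_scale]
  congr 2 <;> ring

theorem row_ed (k : ℕ) (q : Fin n → Fin 2 → ℝ) (i j : Fin n) (h : i ≠ j) :
    rowC k q (ed i j).1 (ed i j).2 = sg k i j • rowC k q i j := by
  unfold ed sg
  rcases lt_or_gt_of_ne h with hij | hij
  · rw [if_pos hij, one_smul]
    simp only [min_eq_left hij.le, max_eq_right hij.le]
  · rw [if_neg (not_lt.mpr hij.le)]
    simp only [min_eq_right hij.le, max_eq_left hij.le]
    funext u m
    simp only [rowC, Pi.smul_apply, smul_eq_mul]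
    by_cases hu : u = i
    · subst hu
      rw [if_neg h, if_pos rfl, if_pos rfl, dv_swap, pow_succ]
      ring
    · by_cases hu2 : u = j
      · subst hu2
        rw [if_pos rfl, if_neg hu, if_pos rfl, dv_swap, pow_succ]
        ring
      · rw [if_neg hu2, if_neg hu, if_neg hu, if_neg hu2, mul_zero]

theorem row_ed' (k : ℕ) (q : Fin n → Fin 2 → ℝ) (i j : Fin n) (h : i ≠ j) :
    rowC k q i j = sg k i j • rowC k q (ed i j).1 (ed i j).2 := by
  rw [row_ed k q i j h, smul_smul, sg_sq, one_smul]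

theorem cind_iff (k : ℕ) (E : Finset (Fin n × Fin n)) (q : Fin n → Fin 2 → ℝ) :
    CInd k E q ↔ ∀ G : Fin n × Fin n → ℝ, ∑ e ∈ E, G e • rowC k q e.1 e.2 = 0 →
      ∀ e ∈ E, G e = 0 :=
  linearIndepOn_finset_iff (R := ℝ) (v := fun e : Fin n × Fin n => rowC k q e.1 e.2) (s := E)

theorem nb_ne {E : Finset (Fin n × Fin n)} (hE : Edges E) {v w : Fin n} (hw : w ∈ nb E v) :
    v ≠ w := by
  unfold nb at hw
  rw [mem_filter] at hw
  have h := hE _ hw.2
  intro hvw
  subst hvw
  unfold ed at h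
  simp at h

theorem sum_split {M : Type*} [AddCommMonoid M] (E : Finset (Fin n × Fin n)) (hE : Edges E)
    (v : Fin n) (f : Fin n × Fin n → M) :
    ∑ e ∈ E, f e = ∑ e ∈ del E v, f e + ∑ w ∈ nb E v, f (ed v w) := by
  rw [← sum_filter_add_sum_filter_not E (fun e => e.1 ≠ v ∧ e.2 ≠ v)]
  unfold del
  congr 1
  have key : ∀ e ∈ E.filter (fun e => ¬ (e.1 ≠ v ∧ e.2 ≠ v)),
      ed v (if e.1 = v then e.2 else e.1) = e := by
    rintro ⟨i, j⟩ he
    rw [mem_filter] at he
    have hij : i < j := hE _ he.1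
    unfold ed
    by_cases h1 : i = v
    · subst h1
      simp only [if_true]
      rw [min_eq_left hij.le, max_eq_right hij.le]
    · have h2 : j = v := by
        by_contra h2
        exact he.2 ⟨h1, h2⟩
      subst h2
      simp only [if_neg h1]
      rw [min_eq_right hij.le, max_eq_left hij.le]
  refine sum_nbij' (fun e => if e.1 = v then e.2 else e.1) (fun w => ed v w) ?_ ?_ ?_ ?_ ?_
  · intro e he
    unfold nb
    rw [mem_filter]
    refine ⟨mem_univ _, ?_⟩
    rw [key e he]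
    exact (mem_filter.mp he).1
  · intro w hw
    rw [mem_filter]
    refine ⟨?_, ?_⟩
    · unfold nb at hw
      exact (mem_filter.mp hw).2
    · unfold ed
      rintro ⟨h1, h2⟩
      rcases le_total v w with h | h
      · exact h1 (min_eq_left h)
      · exact h2 (max_eq_left h)
  · intro e he
    exact key e he
  · intro w hw
    have hne := nb_ne hE hw
    unfold ed
    rcases lt_or_gt_of_ne hne with h | h
    · simp only [min_eq_left h.le, max_eq_right h.le, if_true]
    · simp only [min_eq_right h.le, max_eq_left h.le]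
      rw [if_neg h.ne]
  · intro e he
    rw [key e he]

/-- homogeneous Vandermonde -/
theorem vand (k : ℕ) (T : Finset (Fin n)) (hT : T.card = k + 1) (dir : Fin n → Fin 2 → ℝ)
    (hdir : ∀ i ∈ T, ∀ j ∈ T, i ≠ j → dir i 0 * dir j 1 - dir i 1 * dir j 0 ≠ 0)
    (γ : Fin n → ℝ)
    (h : ∀ m : Fin (k + 1), ∑ i ∈ T, γ i * (dir i 0 ^ (k - (m : ℕ)) * dir i 1 ^ (m : ℕ)) = 0) :
    ∀ i ∈ T, γ i = 0 := by
  let e : Fin (k + 1) ≃ T := (T.equivFinOfCardEq hT).symm
  have hdet : (Matrix.projVandermonde (fun i => dir (e i) 1) (fun i => dir (e i) 0)).det ≠ 0 := by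
    rw [Matrix.det_projVandermonde]
    refine prod_ne_zero_iff.mpr fun i _ => prod_ne_zero_iff.mpr fun j hj => ?_
    have hij : (e i : Fin n) ≠ e j := by
      intro h2
      have h3 := e.injective (Subtype.ext h2)
      rw [mem_Ioi] at hj
      exact hj.ne h3
    have h2 := hdir (e i) (e i).2 (e j) (e j).2 hij
    intro h3
    apply h2
    linarith
  have hv : Matrix.vecMul (fun i => γ (e i))
      (Matrix.projVandermonde (fun i => dir (e i) 1) (fun i => dir (e i) 0)) = 0 := by
    funext m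
    have h2 := h m
    rw [← sum_coe_sort T, ← e.sum_comp] at h2
    simp only [Matrix.vecMul, dotProduct, Matrix.projVandermonde_apply, Pi.zero_apply]
    rw [← h2]
    refine sum_congr rfl fun i _ => ?_
    have h3 : ((m.rev : Fin (k + 1)) : ℕ) = k - (m : ℕ) := by
      rw [Fin.val_rev]
      omega
    rw [h3]
    ring
  have hz := Matrix.eq_zero_of_vecMul_eq_zero hdet hv
  intro i hi
  have h2 := congrFun hz (e.symm ⟨i, hi⟩)
  simpa using h2

/-- two edges from a point of the line `ab` -/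
theorem line (k : ℕ) (q : Fin n → Fin 2 → ℝ) (v a b : Fin n) (hva : v ≠ a) (hvb : v ≠ b)
    (hab : a ≠ b) (s : ℝ) (hs : ∀ i, q v i = q a i + s * (q b i - q a i)) (x y : ℝ)
    (hxy : x * s ^ k + y * (s - 1) ^ k = 0) :
    x • rowC k q v a + y • rowC k q v b = (-((-1) ^ k * (x * s ^ k))) • rowC k q a b := by
  have e1 : ∀ m, Dv k q v a m = s ^ k * Dv k q b a m := by
    intro m
    unfold Dv
    rw [← pow_scale, hs, hs]
    congr 2 <;> ring
  have e2 : ∀ m, Dv k q v b m = (s - 1) ^ k * Dv k q b a m := by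
    intro m
    unfold Dv
    rw [← pow_scale, hs, hs]
    congr 2 <;> ring
  have e3 : ∀ m, Dv k q a b m = (-1) ^ k * Dv k q b a m := fun m => dv_swap k q b a m
  have e4 : ((-1 : ℝ) ^ k) * (-1) ^ k = 1 := by
    rw [← mul_pow]
    norm_num
  funext u m
  simp only [Pi.add_apply, Pi.smul_apply, smul_eq_mul, rowC]
  by_cases hu : u = v
  · subst hu
    rw [if_pos rfl, if_pos rfl, if_neg hva, if_neg hvb, e1, e2]
    linear_combination (Dv k q b a m) * hxy
  · by_cases hua : u = a
    · subst hua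
      rw [if_neg hu, if_pos rfl, if_neg hu, if_neg hab, if_pos rfl, e1, e3]
      linear_combination (x * s ^ k * Dv k q b u m) * e4
    · by_cases hub : u = b
      · subst hub
        rw [if_neg hu, if_neg hua, if_neg hu, if_pos rfl, if_neg hua, if_pos rfl, e2, e3]
        linear_combination (-(Dv k q u a m)) * hxy - (x * s ^ k * Dv k q u a m) * e4
      · rw [if_neg hu, if_neg hua, if_neg hu, if_neg hub, if_neg hua, if_neg hub]
        ring

/-- determinant of two vectors of the plane -/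
def dt {R : Type*} [CommRing R] (u v : Fin 2 → R) : R := u 0 * v 1 - u 1 * v 0

/-- `det(b - a, d - c)` -/
def fD {R : Type*} [CommRing R] (q : Fin n → Fin 2 → R) (a b c d : Fin n) : R :=
  dt (q b - q a) (q d - q c)

/-- `det(w - a, b - a)` -/
def fA {R : Type*} [CommRing R] (q : Fin n → Fin 2 → R) (a b w : Fin n) : R :=
  dt (q w - q a) (q b - q a)

/-- parallelism of the directions from the intersection point -/
def fR {R : Type*} [CommRing R] (q : Fin n → Fin 2 → R) (a b c d w w' : Fin n) : R :=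
  dt (fD q a b c d • (q a - q w) + fD q a c c d • (q b - q a))
    (fD q a b c d • (q a - q w') + fD q a c c d • (q b - q a))

/-- the special placement -/
def qs (a b c d : Fin n) (w : Fin n) (i : Fin 2) : ℝ :=
  if w = a then (if i = 0 then 1 else 0) else
  if w = b then (if i = 0 then 2 else 0) else
  if w = c then (if i = 0 then 0 else 1) else
  if w = d then (if i = 0 then 0 else 2) else
  (if i = 0 then 1 else ((w : ℕ) : ℝ) + 1)

/-- the generic placement -/
noncomputable def XX (w : Fin n) (i : Fin 2) : MvPolynomial (Fin n × Fin 2) ℝ :=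
  MvPolynomial.X (w, i)

theorem eval_fD (x : Fin n × Fin 2 → ℝ) (a b c d : Fin n) :
    MvPolynomial.eval x (fD XX a b c d) = fD (fun w i => x (w, i)) a b c d := by
  simp [fD, dt, XX]

theorem eval_fA (x : Fin n × Fin 2 → ℝ) (a b w : Fin n) :
    MvPolynomial.eval x (fA XX a b w) = fA (fun w i => x (w, i)) a b w := by
  simp [fA, dt, XX]

theorem eval_fR (x : Fin n × Fin 2 → ℝ) (a b c d w w' : Fin n) :
    MvPolynomial.eval x (fR XX a b c d w w') = fR (fun w i => x (w, i)) a b c d w w' := by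
  simp [fR, fD, dt, XX]

/-- a generic placement -/
theorem generic (hMC : S_MC) (hNZ : S_NZ) (k : ℕ) (F : Finset (Fin n × Fin n))
    (q₀ : Fin n → Fin 2 → ℝ) (hq₀ : CInd k F q₀) (a b c d : Fin n) (hab : a ≠ b) (hac : a ≠ c)
    (had : a ≠ d) (hbc : b ≠ c) (hbd : b ≠ d) (hcd : c ≠ d) :
    ∃ q : Fin n → Fin 2 → ℝ, CInd k F q ∧ fD q a b c d ≠ 0 ∧
      (∀ w, w ≠ a → w ≠ b → fA q a b w ≠ 0) ∧ (∀ w, w ≠ c → w ≠ d → fA q c d w ≠ 0) ∧
      (∀ w w', w ≠ a → w ≠ b → w ≠ c → w ≠ d → w' ≠ a → w' ≠ b → w' ≠ c → w' ≠ d → w ≠ w' →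
        fR q a b c d w w' ≠ 0) := by
  obtain ⟨P, hP1, hP2⟩ := hMC k n F q₀ hq₀
  let Q : Fin n × Fin n → MvPolynomial (Fin n × Fin 2) ℝ := fun p =>
    MvPolynomial.map (algebraMap ℚ ℝ) P * fD XX a b c d *
    (if p.1 ≠ a ∧ p.1 ≠ b then fA XX a b p.1 else 1) *
    (if p.1 ≠ c ∧ p.1 ≠ d then fA XX c d p.1 else 1) *
    (if p.1 ≠ a ∧ p.1 ≠ b ∧ p.1 ≠ c ∧ p.1 ≠ d ∧ p.2 ≠ a ∧ p.2 ≠ b ∧ p.2 ≠ c ∧ p.2 ≠ d ∧
      p.1 ≠ p.2 then fR XX a b c d p.1 p.2 else 1)
  have hne : ∀ (R : MvPolynomial (Fin n × Fin 2) ℝ) (x : Fin n × Fin 2 → ℝ),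
      MvPolynomial.eval x R ≠ 0 → R ≠ 0 := by
    intro R x h h0
    rw [h0, map_zero] at h
    exact h rfl
  have hPR : MvPolynomial.map (algebraMap ℚ ℝ) P ≠ 0 := by
    refine hne _ (fun x => q₀ x.1 x.2) ?_
    rw [MvPolynomial.eval_map]
    exact hP1
  set xs : Fin n × Fin 2 → ℝ := fun x => qs a b c d x.1 x.2 with hxs
  have hqa : qs a b c d a = ![1, 0] := by
    funext i
    fin_cases i <;> simp [qs]
  have hqb : qs a b c d b = ![2, 0] := by
    funext i
    fin_cases i <;> simp [qs, hab.symm]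
  have hqc : qs a b c d c = ![0, 1] := by
    funext i
    fin_cases i <;> simp [qs, hac.symm, hbc.symm]
  have hqd : qs a b c d d = ![0, 2] := by
    funext i
    fin_cases i <;> simp [qs, had.symm, hbd.symm, hcd.symm]
  have hqw : ∀ w, w ≠ a → w ≠ b → w ≠ c → w ≠ d → qs a b c d w = ![1, ((w : ℕ) : ℝ) + 1] := by
    intro w h1 h2 h3 h4
    funext i
    fin_cases i <;> simp [qs, h1, h2, h3, h4]
  have hD : fD XX a b c d ≠ 0 := by
    refine hne _ xs ?_
    rw [eval_fD]
    show fD (qs a b c d) a b c d ≠ 0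
    simp only [fD, dt, hqa, hqb, hqc, hqd, Pi.sub_apply]
    norm_num
  have hA : ∀ w, w ≠ a ∧ w ≠ b → fA XX a b w ≠ 0 := by
    rintro w ⟨h1, h2⟩
    refine hne _ xs ?_
    rw [eval_fA]
    show fA (qs a b c d) a b w ≠ 0
    by_cases h3 : w = c
    · subst h3
      simp only [fA, dt, hqa, hqb, hqc, Pi.sub_apply]
      norm_num
    by_cases h4 : w = d
    · subst h4
      simp only [fA, dt, hqa, hqb, hqd, Pi.sub_apply]
      norm_num
    · simp only [fA, dt, hqa, hqb, hqw w h1 h2 h3 h4, Pi.sub_apply]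
      have : (0 : ℝ) ≤ ((w : ℕ) : ℝ) := Nat.cast_nonneg _
      norm_num
      intro h5
      linarith
  have hB : ∀ w, w ≠ c ∧ w ≠ d → fA XX c d w ≠ 0 := by
    rintro w ⟨h3, h4⟩
    refine hne _ xs ?_
    rw [eval_fA]
    show fA (qs a b c d) c d w ≠ 0
    by_cases h1 : w = a
    · subst h1
      simp only [fA, dt, hqa, hqc, hqd, Pi.sub_apply]
      norm_num
    by_cases h2 : w = b
    · subst h2
      simp only [fA, dt, hqb, hqc, hqd, Pi.sub_apply]
      norm_num
    · simp only [fA, dt, hqc, hqd, hqw w h1 h2 h3 h4, Pi.sub_apply]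
      norm_num
  have hR : ∀ w w', w ≠ a ∧ w ≠ b ∧ w ≠ c ∧ w ≠ d ∧ w' ≠ a ∧ w' ≠ b ∧ w' ≠ c ∧ w' ≠ d ∧ w ≠ w' →
      fR XX a b c d w w' ≠ 0 := by
    rintro w w' ⟨h1, h2, h3, h4, h5, h6, h7, h8, h9⟩
    refine hne _ xs ?_
    rw [eval_fR]
    show fR (qs a b c d) a b c d w w' ≠ 0
    simp only [fR, fD, dt, hqa, hqb, hqc, hqd, hqw w h1 h2 h3 h4, hqw w' h5 h6 h7 h8,
      Pi.sub_apply, Pi.add_apply, Pi.smul_apply, smul_eq_mul]
    have : ((w : ℕ) : ℝ) ≠ ((w' : ℕ) : ℝ) := by
      intro h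
      exact h9 (Fin.ext (by exact_mod_cast h))
    norm_num
    intro h
    apply this
    linarith
  have hQ : ∀ p, Q p ≠ 0 := by
    intro p
    refine mul_ne_zero (mul_ne_zero (mul_ne_zero (mul_ne_zero hPR hD) ?_) ?_) ?_
    · split_ifs with h
      · exact hA _ h
      · exact one_ne_zero
    · split_ifs with h
      · exact hB _ h
      · exact one_ne_zero
    · split_ifs with h
      · exact hR _ _ h
      · exact one_ne_zero
  obtain ⟨x, hx⟩ := hNZ (Fin n × Fin 2) (Fin n × Fin n) Q hQ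
  have hx' : ∀ p : Fin n × Fin n, MvPolynomial.eval x (MvPolynomial.map (algebraMap ℚ ℝ) P) ≠ 0 ∧
      MvPolynomial.eval x (fD XX a b c d) ≠ 0 ∧
      MvPolynomial.eval x (if p.1 ≠ a ∧ p.1 ≠ b then fA XX a b p.1 else 1) ≠ 0 ∧
      MvPolynomial.eval x (if p.1 ≠ c ∧ p.1 ≠ d then fA XX c d p.1 else 1) ≠ 0 ∧
      MvPolynomial.eval x (if p.1 ≠ a ∧ p.1 ≠ b ∧ p.1 ≠ c ∧ p.1 ≠ d ∧ p.2 ≠ a ∧ p.2 ≠ b ∧
        p.2 ≠ c ∧ p.2 ≠ d ∧ p.1 ≠ p.2 then fR XX a b c d p.1 p.2 else 1) ≠ 0 := by
    intro p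
    have h := hx p
    simp only [Q, map_mul] at h
    have h1 := mul_ne_zero_iff.mp h
    have h2 := mul_ne_zero_iff.mp h1.1
    have h3 := mul_ne_zero_iff.mp h2.1
    have h4 := mul_ne_zero_iff.mp h3.1
    exact ⟨h4.1, h4.2, h3.2, h2.2, h1.2⟩
  refine ⟨fun w i => x (w, i), ?_, ?_, ?_, ?_, ?_⟩
  · have h := (hx' (a, a)).1
    rw [MvPolynomial.eval_map] at h
    exact hP2 _ h
  · have h := (hx' (a, a)).2.1
    rw [eval_fD] at h
    exact h
  · intro w h1 h2
    have h := (hx' (w, a)).2.2.1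
    rw [if_pos ⟨h1, h2⟩, eval_fA] at h
    exact h
  · intro w h1 h2
    have h := (hx' (w, a)).2.2.2.1
    rw [if_pos ⟨h1, h2⟩, eval_fA] at h
    exact h
  · intro w w' h1 h2 h3 h4 h5 h6 h7 h8 h9
    have h := (hx' (w, w')).2.2.2.2
    rw [if_pos ⟨h1, h2, h3, h4, h5, h6, h7, h8, h9⟩, eval_fR] at h
    exact h

theorem dt_symm (u v : Fin 2 → ℝ) (h : dt u v ≠ 0) : dt v u ≠ 0 := by
  intro h2
  apply h
  unfold dt at h2 ⊢
  linarith

theorem not_del {E : Finset (Fin n × Fin n)} (hE : Edges E) {v : Fin n} {e : Fin n × Fin n}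
    (he : e ∈ E) (he2 : e ∉ del E v) : ∃ w ∈ nb E v, e = ed v w := by
  obtain ⟨i, j⟩ := e
  have hij : i < j := hE _ he
  have h3 : i = v ∨ j = v := by
    by_contra h
    push Not at h
    exact he2 (mem_filter.mpr ⟨he, h.1, h.2⟩)
  have h4 : ∃ w, (i, j) = ed v w := by
    unfold ed
    rcases h3 with h | h
    · refine ⟨j, ?_⟩
      rw [← h, min_eq_left hij.le, max_eq_right hij.le]
    · refine ⟨i, ?_⟩
      rw [← h, min_eq_right hij.le, max_eq_left hij.le]
  obtain ⟨w, hw⟩ := h4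
  refine ⟨w, ?_, hw⟩
  unfold nb
  rw [mem_filter, ← hw]
  exact ⟨mem_univ _, he⟩

theorem ed_ne {a b c d : Fin n} (hac : a ≠ c) (had : a ≠ d) : ed a b ≠ ed c d := by
  intro h
  unfold ed at h
  rw [Prod.mk.injEq] at h
  obtain ⟨h1, h2⟩ := h
  rcases le_total a b with hab | hab
  · rw [min_eq_left hab] at h1
    rcases le_total c d with hcd | hcd
    · rw [min_eq_left hcd] at h1
      exact hac h1
    · rw [min_eq_right hcd] at h1
      exact had h1
  · rw [max_eq_left hab] at h2
    rcases le_total c d with hcd | hcd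
    · rw [max_eq_right hcd] at h2
      exact had h2
    · rw [max_eq_left hcd] at h2
      exact hac h2

theorem split4 {M : Type*} [AddCommMonoid M] (N : Finset (Fin n)) (a b c d : Fin n)
    (ha : a ∈ N) (hb : b ∈ N) (hc : c ∈ N) (hd : d ∈ N) (hab : a ≠ b) (hac : a ≠ c)
    (had : a ≠ d) (hbc : b ≠ c) (hbd : b ≠ d) (hcd : c ≠ d) (f : Fin n → M) :
    ∑ w ∈ N, f w = f a + (f b + (f c + (f d +
      ∑ w ∈ (((N.erase a).erase b).erase c).erase d, f w))) := by
  rw [add_sum_erase _ _ (by simp [hd, had.symm, hbd.symm, hcd.symm]),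
    add_sum_erase _ _ (by simp [hc, hac.symm, hbc.symm]),
    add_sum_erase _ _ (by simp [hb, hab.symm]), add_sum_erase _ _ ha]

end CXx

open CXx in
theorem CX (hMC : S_MC) (hNZ : S_NZ) : S_CX := by
  intro k n hk E hE v hcard a ha b hb c hc d hd hab hac had hbc hbd hcd hEab hEcd hex
  obtain ⟨q₀, hq₀⟩ := hex
  obtain ⟨q1, hq1, hD, hA, hB, hR⟩ := generic hMC hNZ k _ q₀ hq₀ a b c d hab hac had hbc hbd hcd
  have hva : v ≠ a := nb_ne hE ha
  have hvb : v ≠ b := nb_ne hE hb
  have hvc : v ≠ c := nb_ne hE hc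
  have hvd : v ≠ d := nb_ne hE hd
  set D := fD q1 a b c d with hDdef
  set S := fD q1 a c c d with hSdef
  set T := fA q1 a b c with hTdef
  set s := S / D with hs
  set t := T / D with ht
  set q : Fin n → Fin 2 → ℝ := Function.update q1 v (fun i => q1 a i + s * (q1 b i - q1 a i))
    with hq
  have hqo : ∀ w, w ≠ v → q w = q1 w := fun w hw => Function.update_of_ne hw _ _
  have hqv : q v = fun i => q1 a i + s * (q1 b i - q1 a i) := Function.update_self _ _ _
  have hs' : ∀ i, q v i = q a i + s * (q b i - q a i) := by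
    intro i
    rw [hqv, hqo a hva.symm, hqo b hvb.symm]
  have ht' : ∀ i, q v i = q c i + t * (q d i - q c i) := by
    intro i
    rw [hqv, hqo c hvc.symm, hqo d hvd.symm]
    simp only [hs, ht]
    have h2 : q1 a i + S / D * (q1 b i - q1 a i) - (q1 c i + T / D * (q1 d i - q1 c i)) =
        (D * (q1 a i - q1 c i) + S * (q1 b i - q1 a i) - T * (q1 d i - q1 c i)) / D := by
      field_simp
      ring
    have h3 : D * (q1 a i - q1 c i) + S * (q1 b i - q1 a i) - T * (q1 d i - q1 c i) = 0 := by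
      simp only [hDdef, hSdef, hTdef, fD, fA, dt, Pi.sub_apply]
      fin_cases i
      · simp only [Fin.zero_eta]
        ring
      · simp only [Fin.mk_one]
        ring
    rw [h3, zero_div] at h2
    linarith
  have hs0 : s ≠ 0 := by
    rw [hs]
    refine div_ne_zero ?_ hD
    have h2 := hB a hac had
    intro h3
    apply h2
    simp only [hSdef, fD, fA, dt, Pi.sub_apply] at h3 ⊢
    linarith
  have hs1 : s - 1 ≠ 0 := by
    have h2 := hB b hbc hbd
    intro h3
    have h4 : S = D := by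
      rw [hs, sub_eq_zero, div_eq_one_iff_eq hD] at h3
      exact h3
    apply h2
    simp only [hSdef, hDdef, fD, fA, dt, Pi.sub_apply] at h4 ⊢
    linarith
  have ht0 : t ≠ 0 := by
    rw [ht]
    exact div_ne_zero (hA c hac.symm hbc.symm) hD
  have ht1 : t - 1 ≠ 0 := by
    have h2 := hA d had.symm hbd.symm
    intro h3
    have h4 : T = D := by
      rw [ht, sub_eq_zero, div_eq_one_iff_eq hD] at h3
      exact h3
    apply h2
    simp only [hTdef, hDdef, fD, fA, dt, Pi.sub_apply] at h4 ⊢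
    linarith
  have hrow : ∀ i j, i ≠ v → j ≠ v → rowC k q i j = rowC k q1 i j := by
    intro i j hi hj
    unfold rowC Dv
    rw [hqo i hi, hqo j hj]
  have hmemF : ∀ e ∈ insert (ed a b) (insert (ed c d) (del E v)), e.1 ≠ v ∧ e.2 ≠ v := by
    intro e he
    rw [mem_insert, mem_insert] at he
    rcases he with h | h | h
    · subst h
      unfold ed
      rcases le_total a b with h | h
      · rw [min_eq_left h, max_eq_right h]
        exact ⟨hva.symm, hvb.symm⟩
      · rw [min_eq_right h, max_eq_left h]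
        exact ⟨hvb.symm, hva.symm⟩
    · subst h
      unfold ed
      rcases le_total c d with h | h
      · rw [min_eq_left h, max_eq_right h]
        exact ⟨hvc.symm, hvd.symm⟩
      · rw [min_eq_right h, max_eq_left h]
        exact ⟨hvd.symm, hvc.symm⟩
    · exact (mem_filter.mp h).2
  have hF : ∀ G : Fin n × Fin n → ℝ,
      ∑ e ∈ insert (ed a b) (insert (ed c d) (del E v)), G e • rowC k q e.1 e.2 = 0 →
      ∀ e ∈ insert (ed a b) (insert (ed c d) (del E v)), G e = 0 := by
    intro G hG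
    refine (cind_iff k _ q1).mp hq1 G ?_
    rw [← hG]
    refine sum_congr rfl fun e he => ?_
    obtain ⟨h1, h2⟩ := hmemF e he
    rw [hrow _ _ h1 h2]
  refine ⟨q, (cind_iff k E q).mpr ?_⟩
  intro G hG
  set γ : Fin n → ℝ := fun w => G (ed v w) * sg k v w with hγ
  have hG2 : ∑ e ∈ del E v, G e • rowC k q e.1 e.2 + ∑ w ∈ nb E v, γ w • rowC k q v w = 0 := by
    rw [sum_split E hE v] at hG
    rw [← hG]
    congr 1
    refine sum_congr rfl fun w hw => ?_
    rw [row_ed k q v w (nb_ne hE hw), smul_smul]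
  set W := ((((nb E v).erase a).erase b).erase c).erase d with hW
  have hWm : ∀ w, w ∈ W ↔ w ≠ d ∧ w ≠ c ∧ w ≠ b ∧ w ≠ a ∧ w ∈ nb E v := by
    intro w
    rw [hW, mem_erase, mem_erase, mem_erase, mem_erase]
  have hWc : W.card = k - 1 := by
    rw [hW, card_erase_of_mem (by simp [hd, had.symm, hbd.symm, hcd.symm]),
      card_erase_of_mem (by simp [hc, hac.symm, hbc.symm]),
      card_erase_of_mem (by simp [hb, hab.symm]), card_erase_of_mem ha, hcard]
    omega
  have hcW : c ∉ W := fun h => ((hWm c).mp h).2.1 rfl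
  have haW : a ∉ insert c W := by
    rw [mem_insert, not_or]
    exact ⟨hac, fun h => ((hWm a).mp h).2.2.2.1 rfl⟩
  have hTc : (insert a (insert c W)).card = k + 1 := by
    rw [card_insert_of_notMem haW, card_insert_of_notMem hcW, hWc]
    omega
  set dir : Fin n → Fin 2 → ℝ := fun w => if w = a then q b - q a else if w = c then q d - q c
    else q v - q w with hdir
  set γ' : Fin n → ℝ := fun w => if w = a then γ a * s ^ k + γ b * (s - 1) ^ k else
    if w = c then γ c * t ^ k + γ d * (t - 1) ^ k else γ w with hγ'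
  have hda : dir a = q b - q a := by simp [hdir]
  have hdc : dir c = q d - q c := by simp [hdir, hac.symm]
  have hdw : ∀ w ∈ W, dir w = q v - q w := by
    intro w hw
    rw [hWm] at hw
    simp [hdir, hw.2.1, hw.2.2.2.1]
  have hga : γ' a = γ a * s ^ k + γ b * (s - 1) ^ k := by simp [hγ']
  have hgc : γ' c = γ c * t ^ k + γ d * (t - 1) ^ k := by simp [hγ', hac.symm]
  have hgw : ∀ w ∈ W, γ' w = γ w := by
    intro w hw
    rw [hWm] at hw
    simp [hγ', hw.2.1, hw.2.2.2.1]
  have pac : dt (q b - q a) (q d - q c) ≠ 0 := by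
    rw [hqo a hva.symm, hqo b hvb.symm, hqo c hvc.symm, hqo d hvd.symm]
    exact hD
  have paw : ∀ w ∈ W, dt (q b - q a) (q v - q w) ≠ 0 := by
    intro w hw
    rw [hWm] at hw
    have hwv : w ≠ v := (nb_ne hE hw.2.2.2.2).symm
    have h2 := hA w hw.2.2.2.1 hw.2.2.1
    intro h3
    apply h2
    simp only [fA, dt, Pi.sub_apply, hs', hqo a hva.symm, hqo b hvb.symm, hqo w hwv] at h3 ⊢
    linear_combination h3
  have pcw : ∀ w ∈ W, dt (q d - q c) (q v - q w) ≠ 0 := by
    intro w hw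
    rw [hWm] at hw
    have hwv : w ≠ v := (nb_ne hE hw.2.2.2.2).symm
    have h2 := hB w hw.2.1 hw.1
    intro h3
    apply h2
    simp only [fA, dt, Pi.sub_apply, ht', hqo c hvc.symm, hqo d hvd.symm, hqo w hwv] at h3 ⊢
    linear_combination h3
  have pww : ∀ w ∈ W, ∀ w' ∈ W, w ≠ w' → dt (q v - q w) (q v - q w') ≠ 0 := by
    intro w hw w' hw' hne
    rw [hWm] at hw hw'
    have hwv : w ≠ v := (nb_ne hE hw.2.2.2.2).symm
    have hwv' : w' ≠ v := (nb_ne hE hw'.2.2.2.2).symm
    have h2 := hR w w' hw.2.2.2.1 hw.2.2.1 hw.2.1 hw.1 hw'.2.2.2.1 hw'.2.2.1 hw'.2.1 hw'.1 hne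
    intro h3
    apply h2
    have h4 : S = s * D := by
      rw [hs]
      field_simp
    unfold fR
    rw [← hDdef, ← hSdef, h4]
    simp only [dt, Pi.sub_apply, Pi.add_apply, Pi.smul_apply, smul_eq_mul, hqv, hqo w hwv,
      hqo w' hwv'] at h3 ⊢
    linear_combination (D ^ 2) * h3
  have hpar : ∀ i ∈ insert a (insert c W), ∀ j ∈ insert a (insert c W), i ≠ j →
      dt (dir i) (dir j) ≠ 0 := by
    intro i hi j hj hij
    rw [mem_insert, mem_insert] at hi hj
    rcases hi with hi | hi | hi <;> rcases hj with hj | hj | hj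
    · exact absurd (hi.trans hj.symm) hij
    · rw [hi, hj, hda, hdc]
      exact pac
    · rw [hi, hda, hdw j hj]
      exact paw j hj
    · rw [hi, hj, hda, hdc]
      exact dt_symm _ _ pac
    · exact absurd (hi.trans hj.symm) hij
    · rw [hi, hdc, hdw j hj]
      exact pcw j hj
    · rw [hj, hda, hdw i hi]
      exact dt_symm _ _ (paw i hi)
    · rw [hj, hdc, hdw i hi]
      exact dt_symm _ _ (pcw i hi)
    · rw [hdw i hi, hdw j hj]
      exact pww i hi j hj hij
  have hvm : ∀ m : Fin (k + 1), ∑ w ∈ nb E v, γ w * Dv k q v w m = 0 := by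
    intro m
    have h2 := congrFun (congrFun hG2 v) m
    simp only [Pi.add_apply, Finset.sum_apply, Pi.smul_apply, smul_eq_mul, Pi.zero_apply] at h2
    have h3 : ∑ e ∈ del E v, G e * rowC k q e.1 e.2 v m = 0 := by
      refine sum_eq_zero fun e he => ?_
      have h4 := (mem_filter.mp he).2
      unfold rowC
      rw [if_neg (fun h => h4.1 h.symm), if_neg (fun h => h4.2 h.symm), mul_zero]
    rw [h3, zero_add] at h2
    rw [← h2]
    refine sum_congr rfl fun w _ => ?_
    unfold rowC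
    rw [if_pos rfl]
  have hz := vand k (insert a (insert c W)) hTc dir (fun i hi j hj hij => hpar i hi j hj hij) γ'
    (by
      intro m
      rw [sum_insert haW, sum_insert hcW]
      have h2 := hvm m
      rw [split4 (nb E v) a b c d ha hb hc hd hab hac had hbc hbd hcd] at h2
      have h3 : ∑ w ∈ W, γ' w * (dir w 0 ^ (k - (m : ℕ)) * dir w 1 ^ (m : ℕ)) =
          ∑ w ∈ W, γ w * Dv k q v w m := by
        refine sum_congr rfl fun w hw => ?_
        rw [hgw w hw, hdw w hw]
        rfl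
      have ea : Dv k q v a m = s ^ k * ((q b 0 - q a 0) ^ (k - (m : ℕ)) *
          (q b 1 - q a 1) ^ (m : ℕ)) := by
        rw [← pow_scale]
        unfold Dv
        rw [hs', hs']
        congr 2 <;> ring
      have eb : Dv k q v b m = (s - 1) ^ k * ((q b 0 - q a 0) ^ (k - (m : ℕ)) *
          (q b 1 - q a 1) ^ (m : ℕ)) := by
        rw [← pow_scale]
        unfold Dv
        rw [hs', hs']
        congr 2 <;> ring
      have ec : Dv k q v c m = t ^ k * ((q d 0 - q c 0) ^ (k - (m : ℕ)) *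
          (q d 1 - q c 1) ^ (m : ℕ)) := by
        rw [← pow_scale]
        unfold Dv
        rw [ht', ht']
        congr 2 <;> ring
      have ed' : Dv k q v d m = (t - 1) ^ k * ((q d 0 - q c 0) ^ (k - (m : ℕ)) *
          (q d 1 - q c 1) ^ (m : ℕ)) := by
        rw [← pow_scale]
        unfold Dv
        rw [ht', ht']
        congr 2 <;> ring
      rw [h3, hga, hgc, hda, hdc]
      rw [ea, eb, ec, ed'] at h2
      simp only [Pi.sub_apply]
      rw [← hW] at h2
      linear_combination h2)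
  have hza := hz a (mem_insert_self _ _)
  have hzc := hz c (mem_insert_of_mem (mem_insert_self _ _))
  rw [hga] at hza
  rw [hgc] at hzc
  have hzw : ∀ w ∈ W, γ w = 0 := by
    intro w hw
    rw [← hgw w hw]
    exact hz w (mem_insert_of_mem (mem_insert_of_mem hw))
  have l1 := line k q v a b hva hvb hab s hs' (γ a) (γ b) hza
  have l2 := line k q v c d hvc hvd hcd t ht' (γ c) (γ d) hzc
  set lam := -((-1) ^ k * (γ a * s ^ k)) with hlam
  set mu := -((-1) ^ k * (γ c * t ^ k)) with hmu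
  have hG3 : ∑ e ∈ del E v, G e • rowC k q e.1 e.2 + (lam • rowC k q a b +
      mu • rowC k q c d) = 0 := by
    rw [← l1, ← l2]
    rw [split4 (nb E v) a b c d ha hb hc hd hab hac had hbc hbd hcd, ← hW] at hG2
    have h3 : ∑ w ∈ W, γ w • rowC k q v w = 0 :=
      sum_eq_zero fun w hw => by rw [hzw w hw, zero_smul]
    rw [h3, add_zero] at hG2
    rw [← hG2]
    congr 1
    abel
  have hnab : ed a b ∉ del E v := fun h => hEab (mem_filter.mp h).1
  have hncd : ed c d ∉ del E v := fun h => hEcd (mem_filter.mp h).1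
  have hnab2 : ed a b ∉ insert (ed c d) (del E v) := by
    rw [mem_insert, not_or]
    exact ⟨ed_ne hac had, hnab⟩
  set G' : Fin n × Fin n → ℝ := fun e => if e = ed a b then lam * sg k a b else
    if e = ed c d then mu * sg k c d else G e with hG'
  have g1 : G' (ed a b) = lam * sg k a b := by simp [hG']
  have g2 : G' (ed c d) = mu * sg k c d := by
    simp [hG', (ed_ne (b := b) hac had).symm]
  have g3 : ∀ e ∈ del E v, G' e = G e := by
    intro e he
    have h1 : e ≠ ed a b := fun h => hnab (h ▸ he)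
    have h2 : e ≠ ed c d := fun h => hncd (h ▸ he)
    simp [hG', h1, h2]
  have hfin := hF G' (by
    rw [sum_insert hnab2, sum_insert hncd, g1, g2, sum_congr rfl fun e he => by rw [g3 e he],
      mul_smul, mul_smul, ← row_ed' k q a b hab, ← row_ed' k q c d hcd, ← hG3]
    abel)
  have r1 := hfin (ed a b) (mem_insert_self _ _)
  have r2 := hfin (ed c d) (mem_insert_of_mem (mem_insert_self _ _))
  have r3 : ∀ e ∈ del E v, G e = 0 := by
    intro e he
    rw [← g3 e he]
    exact hfin e (mem_insert_of_mem (mem_insert_of_mem he))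
  rw [g1] at r1
  rw [g2] at r2
  have hm1 : ((-1 : ℝ)) ^ k ≠ 0 := pow_ne_zero _ (by norm_num)
  have z1 : γ a = 0 := by
    have h2 := (mul_eq_zero.mp r1).resolve_right (sg_ne k a b)
    rw [hlam, neg_eq_zero] at h2
    have h3 := (mul_eq_zero.mp h2).resolve_left hm1
    exact (mul_eq_zero.mp h3).resolve_right (pow_ne_zero _ hs0)
  have z2 : γ c = 0 := by
    have h2 := (mul_eq_zero.mp r2).resolve_right (sg_ne k c d)
    rw [hmu, neg_eq_zero] at h2
    have h3 := (mul_eq_zero.mp h2).resolve_left hm1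
    exact (mul_eq_zero.mp h3).resolve_right (pow_ne_zero _ ht0)
  have z3 : γ b = 0 := by
    rw [z1, zero_mul, zero_add] at hza
    exact (mul_eq_zero.mp hza).resolve_right (pow_ne_zero _ hs1)
  have z4 : γ d = 0 := by
    rw [z2, zero_mul, zero_add] at hzc
    exact (mul_eq_zero.mp hzc).resolve_right (pow_ne_zero _ ht1)
  intro e he
  by_cases hed : e ∈ del E v
  · exact r3 e hed
  · obtain ⟨w, hw, rfl⟩ := not_del hE he hed
    have hw0 : γ w = 0 := by
      by_cases h1 : w = a
      · rw [h1]; exact z1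
      by_cases h2 : w = b
      · rw [h2]; exact z3
      by_cases h3 : w = c
      · rw [h3]; exact z2
      by_cases h4 : w = d
      · rw [h4]; exact z4
      exact hzw w ((hWm w).mpr ⟨h4, h3, h2, h1, hw⟩)
    exact (mul_eq_zero.mp hw0).resolve_right (sg_ne k v w)

end Pool.Agent.H176RC
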