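import Pool.Agent.H176RC.Defs

set_option autoImplicit false

/-! FIN: the final statement for generic placements, from MAIN and MC. -/

namespace Pool.Agent.H176RC

open Finset

namespace FINaux

theorem ed_inj {n : ℕ} {v w w' : Fin n} (h : ed v w = ed v w') : w = w' := by
  unfold ed at h
  rw [Prod.mk.injEq] at h
  obtain ⟨h1, h2⟩ := h
  rcases le_total v w with hw | hw <;> rcases le_total v w' with hw' | hw'
  · rw [max_eq_right hw, max_eq_right hw'] at h2
    exact h2
  · rw [min_eq_left hw, min_eq_right hw'] at h1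
    rw [max_eq_right hw, max_eq_left hw'] at h2
    rw [h2, h1]
  · rw [min_eq_right hw, min_eq_left hw'] at h1
    rw [max_eq_left hw, max_eq_right hw'] at h2
    rw [h1, h2]
  · rw [min_eq_right hw, min_eq_right hw'] at h1
    exact h1

theorem card_nb {n : ℕ} (E : Finset (Fin n × Fin n)) (hE : ∀ e ∈ E, e.1 < e.2) (v : Fin n) :
    (nb E v).card = (E.filter (fun e => e.1 = v ∨ e.2 = v)).card := by
  apply Finset.card_bij (fun w _ => ed v w)
  · intro w hw
    unfold nb at hw
    rw [mem_filter] at hw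
    rw [mem_filter]
    refine ⟨hw.2, ?_⟩
    unfold ed
    rcases le_total v w with h | h
    · exact Or.inl (min_eq_left h)
    · exact Or.inr (max_eq_left h)
  · intro w _ w' _ h
    exact ed_inj h
  · rintro ⟨a, b⟩ hb
    rw [mem_filter] at hb
    obtain ⟨h1, h2⟩ := hb
    have hlt := hE _ h1
    simp only at hlt h2
    rcases h2 with rfl | rfl
    · refine ⟨b, ?_, ?_⟩
      · unfold nb ed
        rw [mem_filter, min_eq_left hlt.le, max_eq_right hlt.le]
        exact ⟨mem_univ _, h1⟩
      · unfold ed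
        rw [min_eq_left hlt.le, max_eq_right hlt.le]
    · refine ⟨a, ?_, ?_⟩
      · unfold nb ed
        rw [mem_filter, min_eq_right hlt.le, max_eq_left hlt.le]
        exact ⟨mem_univ _, h1⟩
      · unfold ed
        rw [min_eq_right hlt.le, max_eq_left hlt.le]

theorem big_eq {n : ℕ} (k : ℕ) (E : Finset (Fin n × Fin n)) (hE : ∀ e ∈ E, e.1 < e.2) :
    big k E = (univ.filter (fun v : Fin n =>
        k + 4 ≤ (E.filter (fun e => e.1 = v ∨ e.2 = v)).card)).card := by
  unfold big
  congr 1
  apply Finset.filter_congr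
  intro v _
  rw [card_nb E hE v]

end FINaux

open FINaux

theorem FIN (hM : S_MAIN) (hMC : S_MC) : S_FIN := by
  intro k n hk E hE hdeg p q _ hq hLI
  have hbig : ((k : ℤ) - 4) * (big k E : ℤ) < k * (k + 1) := by
    rw [big_eq k E hE]
    exact hdeg
  have hR : RInd k E p := hLI
  obtain ⟨q₀, hq₀⟩ := hM k n hk E hE hbig ⟨p, hR⟩
  obtain ⟨P, hP0, hP⟩ := hMC k n E q₀ hq₀
  have hPne : P ≠ 0 := by
    rintro rfl
    exact hP0 (map_zero _)
  have hqP : MvPolynomial.aeval (fun x : Fin n × Fin 2 => q x.1 x.2) P ≠ 0 := by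
    intro h
    exact hPne (hq.eq_zero_of_aeval_eq_zero P h)
  exact hP q hqP

end Pool.Agent.H176RC
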