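import Pool.Agent.H176RC.Defs

set_option autoImplicit false

/-! GP: generic placements are in general position. -/

namespace Pool.Agent.H176RC

open Finset

namespace GPh

variable {n k : ℕ}

/-- the matrix with the rows `(1, p_i)` -/
noncomputable def M (e : Fin (k + 1) → Fin n) :
    Matrix (Fin (k + 1)) (Fin (k + 1)) (MvPolynomial (Fin n × Fin k) ℝ) :=
  Matrix.of fun i j => Fin.cases 1 (fun a => MvPolynomial.X (e i, a)) j

/-- the same over the reals -/
noncomputable def N (p : Fin n → Fin k → ℝ) (e : Fin (k + 1) → Fin n) :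
    Matrix (Fin (k + 1)) (Fin (k + 1)) ℝ :=
  Matrix.of fun i j => Fin.cases (1 : ℝ) (fun a => p (e i) a) j

theorem eval_det (p : Fin n → Fin k → ℝ) (e : Fin (k + 1) → Fin n) :
    MvPolynomial.eval (fun x => p x.1 x.2) (M e).det = (N p e).det := by
  rw [RingHom.map_det]
  congr 1
  ext i j
  refine Fin.cases ?_ (fun a => ?_) j
  · simp [M, N]
  · simp [M, N]

theorem det_ne_zero {e : Fin (k + 1) → Fin n} (he : Function.Injective e) : (M e).det ≠ 0 := by
  intro h
  have h1 := eval_det (fun (i : Fin n) (a : Fin k) => ((i : ℕ) : ℝ) ^ ((a : ℕ) + 1)) e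
  rw [h, map_zero] at h1
  have h2 : N (fun (i : Fin n) (a : Fin k) => ((i : ℕ) : ℝ) ^ ((a : ℕ) + 1)) e =
      Matrix.vandermonde (fun i => ((e i : ℕ) : ℝ)) := by
    ext i j
    refine Fin.cases ?_ (fun a => ?_) j
    · simp [N, Matrix.vandermonde]
    · simp [N, Matrix.vandermonde]
  rw [h2] at h1
  refine (Matrix.det_vandermonde_ne_zero_iff.2 ?_) h1.symm
  intro i j hij
  have hij' : ((e i : ℕ) : ℝ) = ((e j : ℕ) : ℝ) := hij
  exact he (Fin.ext (by exact_mod_cast hij'))

theorem affine {p : Fin n → Fin k → ℝ} {S : Finset (Fin n)} (e : Fin (k + 1) ≃ ↥S)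
    (h : (N p (fun i => (e i : Fin n))).det ≠ 0) : AffineIndependent ℝ (fun i : ↥S => p i) := by
  rw [affineIndependent_iff]
  intro s w hw1 hw2 x hx
  classical
  have key := Matrix.eq_zero_of_vecMul_eq_zero (v := fun i => if e i ∈ s then w (e i) else 0) h (by
    funext j
    have hsum : ∀ f : ↥S → ℝ, ∑ i, (if e i ∈ s then w (e i) else 0) * f (e i) =
        ∑ x ∈ s, w x * f x := by
      intro f
      rw [Equiv.sum_comp e (fun x => (if x ∈ s then w x else 0) * f x)]
      simp only [ite_mul, zero_mul]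
      rw [Finset.sum_ite_mem, Finset.univ_inter]
    show ∑ i, (if e i ∈ s then w (e i) else 0) * N p (fun i => (e i : Fin n)) i j = 0
    refine Fin.cases ?_ (fun a => ?_) j
    · have := hsum (fun _ => 1)
      simp only [mul_one] at this
      simp only [N, Matrix.of_apply, Fin.cases_zero, mul_one]
      rw [this, hw1]
    · have := hsum (fun x => p x a)
      simp only [N, Matrix.of_apply, Fin.cases_succ]
      rw [this]
      have h3 := congrFun hw2 a
      rw [Finset.sum_apply] at h3
      simpa using h3)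
  have h4 := congrFun key (e.symm x)
  simp only [Equiv.apply_symm_apply, if_pos hx, Pi.zero_apply] at h4
  exact h4

end GPh

open GPh in
theorem GPthm (hMR : S_MR) (hNZ : S_NZ) : S_GP := by
  intro k n E ⟨p₀, hp₀⟩
  obtain ⟨P, hP, hP'⟩ := hMR k n E p₀ hp₀
  have hP0 : P ≠ 0 := by
    rintro rfl
    exact hP (map_zero _)
  let I := {S : Finset (Fin n) // S.card = k + 1}
  let e : (S : I) → Fin (k + 1) ≃ ↥S.1 := fun S => (S.1.equivFinOfCardEq S.2).symm
  obtain ⟨x, hx⟩ := hNZ (Fin n × Fin k) (Option I)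
    (fun o => o.elim P fun S => (M (fun i => (e S i : Fin n))).det) (by
      rintro (_ | S)
      · exact hP0
      · exact det_ne_zero (fun i j hij => (e S).injective (Subtype.ext hij)))
  refine ⟨fun i a => x (i, a), ?_, ?_⟩
  · exact hP' _ (hx none)
  · intro S hS
    refine affine (p := fun i a => x (i, a)) (e ⟨S, hS⟩) ?_
    rw [← eval_det]
    exact hx (some ⟨S, hS⟩)

end Pool.Agent.H176RC
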