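import Pool.Agent.H176RC.Defs

set_option autoImplicit false

namespace Pool.Agent.H176RC

open Finset

/-- affine dependence of `k + 2` points in `ℝ^k` in general position: all coefficients nonzero -/
theorem K_coeff (k n : ℕ) (p : Fin n → Fin k → ℝ) (hp : GP k p) (W : Finset (Fin n))
    (hW : W.card = k + 2) :
    ∃ c : Fin n → ℝ, (∀ i ∈ W, c i ≠ 0) ∧ ∑ i ∈ W, c i = 0 ∧ ∑ i ∈ W, c i • p i = 0 := by
  classical
  have hnot : ¬ AffineIndependent ℝ (fun i : ↥W => p i) := by
    intro h
    have h1 := h.card_le_finrank_succ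
    have h2 : Module.finrank ℝ (vectorSpan ℝ (Set.range (fun i : ↥W => p i))) ≤
        Module.finrank ℝ (Fin k → ℝ) := Submodule.finrank_le _
    rw [Module.finrank_fin_fun] at h2
    rw [Fintype.card_coe, hW] at h1
    omega
  rw [affineIndependent_iff] at hnot
  push Not at hnot
  obtain ⟨s, w, hw0, hw1, e, he, hwe⟩ := hnot
  obtain ⟨c, hc⟩ : ∃ c : Fin n → ℝ, ∀ x : ↥W, c x = if x ∈ s then w x else 0 :=
    ⟨fun i => if h : i ∈ W then (if (⟨i, h⟩ : ↥W) ∈ s then w ⟨i, h⟩ else 0) else 0, by
      intro x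
      simp⟩
  have hs0 : ∑ i ∈ W, c i = 0 := by
    rw [← Finset.sum_coe_sort W c]
    simp only [hc]
    rw [← Finset.sum_filter, Finset.filter_mem_eq_inter, Finset.univ_inter]
    exact hw0
  have hs1 : ∑ i ∈ W, c i • p i = 0 := by
    rw [← Finset.sum_coe_sort W (fun i => c i • p i)]
    have h3 : ∀ x : ↥W, c x • p x = if x ∈ s then w x • p x else 0 := by
      intro x
      rw [hc]
      split_ifs <;> simp
    simp only [h3]
    rw [← Finset.sum_filter, Finset.filter_mem_eq_inter, Finset.univ_inter]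
    exact hw1
  have hce : c e ≠ 0 := by
    rw [hc, if_pos he]
    exact hwe
  refine ⟨c, ?_, hs0, hs1⟩
  intro i hi hci
  have hcard : (W.erase i).card = k + 1 := by
    rw [Finset.card_erase_of_mem hi, hW]
    rfl
  have hind := hp _ hcard
  rw [affineIndependent_iff] at hind
  have h4 : ∑ x : ↥(W.erase i), c x = 0 := by
    rw [Finset.sum_coe_sort (W.erase i) c, Finset.sum_erase W hci]
    exact hs0
  have h5 : ∑ x : ↥(W.erase i), c x • p x = 0 := by
    rw [Finset.sum_coe_sort (W.erase i) (fun i => c i • p i)]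
    rw [Finset.sum_erase W (by rw [hci, zero_smul])]
    exact hs1
  have h6 := hind Finset.univ (fun x => c x) h4 h5
  have hei : (e : Fin n) ≠ i := by
    intro h
    rw [h] at hce
    exact hce hci
  exact hce (h6 ⟨e, Finset.mem_erase.mpr ⟨hei, e.2⟩⟩ (Finset.mem_univ _))

theorem K : S_K := by
  classical
  intro k n p hp W hW
  obtain ⟨c, hc, hs0, hs1⟩ := K_coeff k n p hp W hW
  refine ⟨fun i j => c i * c j, fun i hi j hj _ => mul_ne_zero (hc i hi) (hc j hj), ?_⟩
  have hs2 : ∀ a : Fin k, ∑ i ∈ W, c i * p i a = 0 := by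
    intro a
    have h := congrFun hs1 a
    rw [Finset.sum_apply] at h
    simpa using h
  funext v a
  rw [Finset.sum_apply, Finset.sum_apply]
  set g : Fin n → Fin n → ℝ := fun i j =>
    c i * c j * (p i a - p j a) * ((if v = i then 1 else 0) - (if v = j then 1 else 0)) with hg
  have hterm : ∀ e ∈ (W ×ˢ W).filter (fun e => e.1 < e.2),
      ((c e.1 * c e.2) • rowR k p e.1 e.2) v a = g e.1 e.2 := by
    intro e he
    rw [Finset.mem_filter] at he
    have hne : e.1 ≠ e.2 := ne_of_lt he.2
    simp only [Pi.smul_apply, smul_eq_mul, rowR, hg]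
    by_cases h1 : v = e.1
    · have h2 : ¬ v = e.2 := fun h => hne (h1.symm.trans h)
      rw [if_pos h1, if_pos h1, if_neg h2]
      ring
    · rw [if_neg h1, if_neg h1]
      by_cases h2 : v = e.2
      · rw [if_pos h2, if_pos h2]
        ring
      · rw [if_neg h2, if_neg h2]
        ring
  rw [Finset.sum_congr rfl hterm, Finset.sum_filter, Finset.sum_product]
  simp only [Pi.zero_apply]
  have hsymm : ∀ i j, g i j = g j i := by
    intro i j
    simp only [hg]
    ring
  have hdiag : ∀ i, g i i = 0 := by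
    intro i
    simp only [hg]
    ring
  have hswap : ∑ i ∈ W, ∑ j ∈ W, (if i < j then g i j else 0) =
      ∑ i ∈ W, ∑ j ∈ W, (if j < i then g i j else 0) := by
    rw [Finset.sum_comm]
    refine Finset.sum_congr rfl fun i _ => Finset.sum_congr rfl fun j _ => ?_
    rw [hsymm j i]
  have hsum : ∑ i ∈ W, ∑ j ∈ W, (if i < j then g i j else 0) +
      ∑ i ∈ W, ∑ j ∈ W, (if j < i then g i j else 0) = ∑ i ∈ W, ∑ j ∈ W, g i j := by
    rw [← Finset.sum_add_distrib]
    refine Finset.sum_congr rfl fun i _ => ?_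
    rw [← Finset.sum_add_distrib]
    refine Finset.sum_congr rfl fun j _ => ?_
    rcases lt_trichotomy i j with h | h | h
    · rw [if_pos h, if_neg (not_lt.mpr h.le), add_zero]
    · rw [h, if_neg (lt_irrefl _), hdiag]
      simp
    · rw [if_neg (not_lt.mpr h.le), if_pos h, zero_add]
  have hzero : ∑ i ∈ W, ∑ j ∈ W, g i j = 0 := by
    have e1 : ∀ i ∈ W, ∑ j ∈ W, c i * c j * (p i a - p j a) * (if v = i then (1 : ℝ) else 0) = 0 := by
      intro i _
      have e2 : ∑ j ∈ W, c i * c j * (p i a - p j a) * (if v = i then (1 : ℝ) else 0) =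
          c i * p i a * (if v = i then (1 : ℝ) else 0) * ∑ j ∈ W, c j
            - c i * (if v = i then (1 : ℝ) else 0) * ∑ j ∈ W, c j * p j a := by
        rw [Finset.mul_sum, Finset.mul_sum, ← Finset.sum_sub_distrib]
        refine Finset.sum_congr rfl fun j _ => ?_
        ring
      rw [e2, hs0, hs2]
      ring
    have e3 : ∑ i ∈ W, ∑ j ∈ W, g i j =
        ∑ i ∈ W, ∑ j ∈ W, c i * c j * (p i a - p j a) * (if v = i then (1 : ℝ) else 0)
        + ∑ i ∈ W, ∑ j ∈ W, c j * c i * (p j a - p i a) * (if v = j then (1 : ℝ) else 0) := by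
      rw [← Finset.sum_add_distrib]
      refine Finset.sum_congr rfl fun i _ => ?_
      rw [← Finset.sum_add_distrib]
      refine Finset.sum_congr rfl fun j _ => ?_
      simp only [hg]
      ring
    have e4 : ∑ i ∈ W, ∑ j ∈ W, c j * c i * (p j a - p i a) * (if v = j then (1 : ℝ) else 0) = 0 := by
      rw [Finset.sum_comm]
      exact Finset.sum_eq_zero e1
    rw [e3, Finset.sum_eq_zero e1, e4, add_zero]
  rw [← hswap, hzero] at hsum
  linarith

end Pool.Agent.H176RC
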