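import Pool.Agent.H176RC.Defs

set_option autoImplicit false

namespace Pool.Agent.H176RC

open Finset

variable {n : ℕ}

theorem main_ed_comm (a b : Fin n) : ed a b = ed b a := by
  unfold ed; rw [min_comm, max_comm]

theorem main_ed_eq {a b c d : Fin n} (h : ed a b = ed c d) :
    (a = c ∧ b = d) ∨ (a = d ∧ b = c) := by
  unfold ed at h
  rw [Prod.mk.injEq] at h
  obtain ⟨h1, h2⟩ := h
  rcases le_total a b with hab | hab <;> rcases le_total c d with hcd | hcd
  · rw [min_eq_left hab, min_eq_left hcd] at h1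
    rw [max_eq_right hab, max_eq_right hcd] at h2
    exact Or.inl ⟨h1, h2⟩
  · rw [min_eq_left hab, min_eq_right hcd] at h1
    rw [max_eq_right hab, max_eq_left hcd] at h2
    exact Or.inr ⟨h1, h2⟩
  · rw [min_eq_right hab, min_eq_left hcd] at h1
    rw [max_eq_left hab, max_eq_right hcd] at h2
    exact Or.inr ⟨h2, h1⟩
  · rw [min_eq_right hab, min_eq_right hcd] at h1
    rw [max_eq_left hab, max_eq_left hcd] at h2
    exact Or.inl ⟨h2, h1⟩

theorem main_ed_self {e : Fin n × Fin n} (h : e.1 < e.2) : ed e.1 e.2 = e := by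
  unfold ed
  rw [min_eq_left h.le, max_eq_right h.le]

theorem main_mem_nb {E : Finset (Fin n × Fin n)} {v w : Fin n} :
    w ∈ nb E v ↔ ed v w ∈ E := by
  unfold nb; simp

theorem main_nb_symm {E : Finset (Fin n × Fin n)} {v w : Fin n} (h : w ∈ nb E v) :
    v ∈ nb E w := by
  rw [main_mem_nb] at h ⊢
  rw [main_ed_comm]; exact h

theorem main_nb_ne {E : Finset (Fin n × Fin n)} (hE : Edges E) {v w : Fin n} (h : w ∈ nb E v) :
    w ≠ v := by
  rintro rfl
  rw [main_mem_nb] at h
  have := hE _ h
  unfold ed at this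
  simp at this

theorem main_mem_del {E : Finset (Fin n × Fin n)} {v : Fin n} {e : Fin n × Fin n} :
    e ∈ del E v ↔ e ∈ E ∧ e.1 ≠ v ∧ e.2 ≠ v := by
  unfold del; simp

theorem main_ed_mem_del {E : Finset (Fin n × Fin n)} {v a b : Fin n} :
    ed a b ∈ del E v ↔ ed a b ∈ E ∧ a ≠ v ∧ b ≠ v := by
  rw [main_mem_del]
  unfold ed
  rcases le_total a b with hab | hab
  · rw [min_eq_left hab, max_eq_right hab]
  · rw [min_eq_right hab, max_eq_left hab]
    simp only [ne_eq]; tauto

/-- number of deleted edges -/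
theorem main_card_del {E : Finset (Fin n × Fin n)} (v : Fin n) :
    (del E v).card + (nb E v).card ≤ E.card := by
  have hinj : Function.Injective (fun w : Fin n => ed v w) := by
    intro w w' h
    rcases main_ed_eq h with ⟨_, h2⟩ | ⟨h1, h2⟩
    · exact h2
    · rw [h2, h1]
  have h1 : ((nb E v).image (fun w => ed v w)).card = (nb E v).card :=
    card_image_of_injective _ hinj
  have hd : Disjoint (del E v) ((nb E v).image (fun w => ed v w)) := by
    rw [Finset.disjoint_left]
    intro e he he'
    rw [Finset.mem_image] at he'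
    obtain ⟨w, _, rfl⟩ := he'
    rw [main_ed_mem_del] at he
    exact he.2.1 rfl
  rw [← h1, ← card_union_of_disjoint hd]
  apply card_le_card
  intro e he
  rw [Finset.mem_union] at he
  rcases he with he | he
  · exact (main_mem_del.1 he).1
  · rw [Finset.mem_image] at he
    obtain ⟨w, hw, rfl⟩ := he
    exact main_mem_nb.1 hw

theorem main_sum_deg (E : Finset (Fin n × Fin n)) :
    ∑ v, (nb E v).card ≤ 2 * E.card := by
  classical
  have h1 : ∑ v, (nb E v).card =
      ((univ : Finset (Fin n × Fin n)).filter (fun x => ed x.1 x.2 ∈ E)).card := by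
    rw [card_filter, Fintype.sum_prod_type]
    apply Finset.sum_congr rfl
    intro v _
    unfold nb
    rw [card_filter]
  rw [h1]
  apply Finset.card_le_mul_card_image_of_maps_to (f := fun x : Fin n × Fin n => ed x.1 x.2)
  · intro x hx
    exact (Finset.mem_filter.1 hx).2
  · intro e _
    calc _ ≤ ({(e.1, e.2), (e.2, e.1)} : Finset (Fin n × Fin n)).card := by
          apply card_le_card
          intro x hx
          rw [Finset.mem_filter] at hx
          obtain ⟨_, hx⟩ := hx
          have hx' : (min x.1 x.2, max x.1 x.2) = e := hx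
          have h1 : min x.1 x.2 = e.1 := by rw [← hx']
          have h2 : max x.1 x.2 = e.2 := by rw [← hx']
          rw [Finset.mem_insert, Finset.mem_singleton]
          rcases le_total x.1 x.2 with h | h
          · rw [min_eq_left h] at h1; rw [max_eq_right h] at h2
            left; exact Prod.ext h1 h2
          · rw [min_eq_right h] at h1; rw [max_eq_left h] at h2
            right; exact Prod.ext h2 h1
      _ ≤ 2 := card_le_two

/-- comparison of the degrees -/
theorem main_deg_le {E E' : Finset (Fin n × Fin n)} {v : Fin n} (m : Fin n → Fin n)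
    (h : ∀ w x, ed w x ∈ E' → x ≠ v ∧ (ed w x ∈ E ∨ (w ∈ nb E v ∧ x = m w))) (w : Fin n) :
    (nb E' w).card ≤ (nb E w).card := by
  by_cases hw : w ∈ nb E v
  · have hv : v ∈ nb E w := main_nb_symm hw
    have hsub : nb E' w ⊆ insert (m w) ((nb E w).erase v) := by
      intro x hx
      rw [main_mem_nb] at hx
      obtain ⟨h1, h2⟩ := h w x hx
      rw [Finset.mem_insert, Finset.mem_erase]
      rcases h2 with h2 | h2
      · right; exact ⟨h1, main_mem_nb.2 h2⟩
      · left; exact h2.2
    calc (nb E' w).card ≤ (insert (m w) ((nb E w).erase v)).card := card_le_card hsub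
      _ ≤ ((nb E w).erase v).card + 1 := card_insert_le _ _
      _ = (nb E w).card := card_erase_add_one hv
  · apply card_le_card
    intro x hx
    rw [main_mem_nb] at hx
    obtain ⟨h1, h2⟩ := h w x hx
    rcases h2 with h2 | h2
    · exact main_mem_nb.2 h2
    · exact absurd h2.1 hw

theorem main_big_le {k : ℕ} {E E' : Finset (Fin n × Fin n)}
    (h : ∀ w, (nb E' w).card ≤ (nb E w).card) : big k E' ≤ big k E := by
  unfold big
  apply card_le_card
  intro w hw
  rw [Finset.mem_filter] at hw ⊢
  exact ⟨hw.1, hw.2.trans (h w)⟩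

theorem main_hyp {k b b' : ℕ} (hk : 1 ≤ k) (hb : b' ≤ b)
    (h : ((k : ℤ) - 4) * (b : ℤ) < k * (k + 1)) : ((k : ℤ) - 4) * (b' : ℤ) < k * (k + 1) := by
  have hb' : (b' : ℤ) ≤ b := by exact_mod_cast hb
  have h0 : (0 : ℤ) ≤ b' := by positivity
  have hk' : (1 : ℤ) ≤ k := by exact_mod_cast hk
  rcases le_total (4 : ℤ) k with h4 | h4
  · nlinarith
  · nlinarith

theorem main_rind_mono {k : ℕ} {E E' : Finset (Fin n × Fin n)} {p : Fin n → Fin k → ℝ}
    (hsub : E' ⊆ E) (h : RInd k E p) : RInd k E' p := by
  unfold RInd at h ⊢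
  exact h.comp (fun e : ↥E' => (⟨e.1, hsub e.2⟩ : ↥E)) (by
    intro a b hab
    apply Subtype.ext
    exact congrArg (fun x : ↥E => x.1) hab)

/-- there is a vertex of small positive degree -/
theorem main_exists (hMX : S_MX) {k : ℕ} (hk : 1 ≤ k) {E : Finset (Fin n × Fin n)}
    (hE : Edges E) (hb : ((k : ℤ) - 4) * (big k E : ℤ) < k * (k + 1))
    (hR : ∃ p : Fin n → Fin k → ℝ, RInd k E p) (hne : E.Nonempty) :
    ∃ v, 1 ≤ (nb E v).card ∧ (nb E v).card ≤ k + 3 := by
  by_contra hcon
  push Not at hcon
  set H := univ.filter (fun v => (nb E v).Nonempty) with hH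
  have hbig : ∀ v, (nb E v).Nonempty → k + 4 ≤ (nb E v).card := by
    intro v hv
    have := hcon v hv.card_pos
    omega
  have h1 : big k E = H.card := by
    unfold big
    congr 1
    ext v
    rw [Finset.mem_filter, hH, Finset.mem_filter]
    constructor
    · rintro ⟨h, h'⟩
      exact ⟨h, card_pos.1 (by omega)⟩
    · rintro ⟨h, h'⟩
      exact ⟨h, hbig v h'⟩
  obtain ⟨e, he⟩ := hne
  have he2 : e.2 ∈ nb E e.1 := by
    rw [main_mem_nb, main_ed_self (hE e he)]; exact he
  have h2 : k + 4 ≤ (nb E e.1).card := hbig _ ⟨_, he2⟩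
  have h3 : nb E e.1 ⊆ H := by
    intro w hw
    rw [hH, Finset.mem_filter]
    exact ⟨mem_univ _, ⟨_, main_nb_symm hw⟩⟩
  have h4 : (nb E e.1).card ≤ H.card := card_le_card h3
  have h5 := hMX k n E hE hR (by rw [← hH]; omega)
  rw [← hH] at h5
  have h6 : (k + 4) * H.card ≤ 2 * E.card := by
    calc (k + 4) * H.card = ∑ _v ∈ H, (k + 4) := by rw [sum_const, smul_eq_mul, mul_comm]
      _ ≤ ∑ v ∈ H, (nb E v).card := by
          apply sum_le_sum
          intro v hv
          rw [hH, Finset.mem_filter] at hv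
          exact hbig v hv.2
      _ ≤ ∑ v, (nb E v).card := by
          apply sum_le_sum_of_subset
          exact subset_univ _
      _ ≤ 2 * E.card := main_sum_deg E
  rw [h1] at hb
  have h7 : (k + 4) * H.card + k * (k + 1) ≤ 2 * k * H.card := by omega
  have h8 : ((k : ℤ) + 4) * (H.card : ℤ) + k * (k + 1) ≤ 2 * k * H.card := by exact_mod_cast h7
  linarith

theorem main_aux (hGP : S_GP) (hRS2 : S_RS2) (hRS3 : S_RS3) (hC0 : S_C0) (hC1 : S_C1)
    (hCX : S_CX) (hMX : S_MX) (k n : ℕ) (hk : 1 ≤ k) : ∀ N : ℕ,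
    ∀ (E : Finset (Fin n × Fin n)), E.card = N → Edges E →
    ((k : ℤ) - 4) * (big k E : ℤ) < k * (k + 1) →
    (∃ p : Fin n → Fin k → ℝ, RInd k E p) → ∃ q, CInd k E q := by
  intro N
  induction N using Nat.strong_induction_on with
  | _ N IH =>
  intro E hN hE hb hR
  rcases E.eq_empty_or_nonempty with rfl | hne
  · refine ⟨fun _ _ => 0, ?_⟩
    unfold CInd
    exact linearIndependent_empty_type
  obtain ⟨v, hv1, hv2⟩ := main_exists hMX hk hE hb hR hne
  have hcard := main_card_del (E := E) v
  have hdelE : Edges (del E v) := fun e he => hE e (main_mem_del.1 he).1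
  by_cases hc : (nb E v).card ≤ k + 1
  · apply hC0 k n E hE v hc
    obtain ⟨p, hp⟩ := hR
    refine IH (del E v).card (by omega) (del E v) rfl hdelE ?_ ⟨p, ?_⟩
    · refine main_hyp hk ?_ hb
      apply main_big_le
      apply main_deg_le (v := v) (fun w => w)
      intro w x hwx
      rw [main_ed_mem_del] at hwx
      exact ⟨hwx.2.2, Or.inl hwx.1⟩
    · exact main_rind_mono (fun e he => (main_mem_del.1 he).1) hp
  push Not at hc
  obtain ⟨p, hp, hgp⟩ := hGP k n E hR
  by_cases hc2 : (nb E v).card = k + 2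
  · obtain ⟨a, ha, b, hab', hab, habE, hR'⟩ := hRS2 k n hk E hE p hgp hp v hc2
    apply hC1 k n hk E hE v hc2 a ha b hab' hab habE
    have hav : a ≠ v := main_nb_ne hE ha
    have hbv : b ≠ v := main_nb_ne hE hab'
    refine IH (insert (ed a b) (del E v)).card ?_ _ rfl ?_ ?_ ⟨p, hR'⟩
    · have := card_insert_le (ed a b) (del E v)
      omega
    · intro e he
      rw [Finset.mem_insert] at he
      rcases he with rfl | he
      · unfold ed; simp only
        exact lt_of_le_of_ne (min_le_max) (by
          intro h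
          apply hab
          rcases le_total a b with h' | h'
          · rw [min_eq_left h', max_eq_right h'] at h; exact h
          · rw [min_eq_right h', max_eq_left h'] at h; exact h.symm)
      · exact hdelE e he
    · refine main_hyp hk ?_ hb
      apply main_big_le
      apply main_deg_le (v := v) (fun w => if w = a then b else a)
      intro w x hwx
      rw [Finset.mem_insert] at hwx
      rcases hwx with hwx | hwx
      · rcases main_ed_eq hwx with ⟨rfl, rfl⟩ | ⟨rfl, rfl⟩
        · exact ⟨hbv, Or.inr ⟨ha, by simp⟩⟩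
        · refine ⟨hav, Or.inr ⟨hab', ?_⟩⟩
          rw [if_neg (Ne.symm hab)]
      · rw [main_ed_mem_del] at hwx
        exact ⟨hwx.2.2, Or.inl hwx.1⟩
  · have hc3 : (nb E v).card = k + 3 := by omega
    obtain ⟨a, ha, b, hb', c, hc', d, hd', hab, hac, had, hbc, hbd, hcd, habE, hcdE, hR'⟩ :=
      hRS3 k n hk E hE p hgp hp v hc3
    apply hCX k n hk E hE v hc3 a ha b hb' c hc' d hd' hab hac had hbc hbd hcd habE hcdE
    have hav : a ≠ v := main_nb_ne hE ha
    have hbv : b ≠ v := main_nb_ne hE hb'
    have hcv : c ≠ v := main_nb_ne hE hc'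
    have hdv : d ≠ v := main_nb_ne hE hd'
    have hlt : ∀ {a b : Fin n}, a ≠ b → (ed a b).1 < (ed a b).2 := by
      intro a b hab
      unfold ed; simp only
      exact lt_of_le_of_ne (min_le_max) (by
        intro h
        apply hab
        rcases le_total a b with h' | h'
        · rw [min_eq_left h', max_eq_right h'] at h; exact h
        · rw [min_eq_right h', max_eq_left h'] at h; exact h.symm)
    refine IH (insert (ed a b) (insert (ed c d) (del E v))).card ?_ _ rfl ?_ ?_ ⟨p, hR'⟩
    · have h1 := card_insert_le (ed c d) (del E v)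
      have h2 := card_insert_le (ed a b) (insert (ed c d) (del E v))
      omega
    · intro e he
      rw [Finset.mem_insert, Finset.mem_insert] at he
      rcases he with rfl | rfl | he
      · exact hlt hab
      · exact hlt hcd
      · exact hdelE e he
    · refine main_hyp hk ?_ hb
      apply main_big_le
      apply main_deg_le (v := v)
        (fun w => if w = a then b else if w = b then a else if w = c then d else c)
      intro w x hwx
      rw [Finset.mem_insert, Finset.mem_insert] at hwx
      rcases hwx with hwx | hwx | hwx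
      · rcases main_ed_eq hwx with ⟨rfl, rfl⟩ | ⟨rfl, rfl⟩
        · exact ⟨hbv, Or.inr ⟨ha, by simp⟩⟩
        · refine ⟨hav, Or.inr ⟨hb', ?_⟩⟩
          rw [if_neg (Ne.symm hab), if_pos rfl]
      · rcases main_ed_eq hwx with ⟨rfl, rfl⟩ | ⟨rfl, rfl⟩
        · refine ⟨hdv, Or.inr ⟨hc', ?_⟩⟩
          rw [if_neg (Ne.symm hac), if_neg (Ne.symm hbc), if_pos rfl]
        · refine ⟨hcv, Or.inr ⟨hd', ?_⟩⟩
          rw [if_neg (Ne.symm had), if_neg (Ne.symm hbd), if_neg (Ne.symm hcd)]
      · rw [main_ed_mem_del] at hwx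
        exact ⟨hwx.2.2, Or.inl hwx.1⟩

/-- task MAIN -/
theorem MAIN (hGP : S_GP) (hRS2 : S_RS2) (hRS3 : S_RS3) (hC0 : S_C0) (hC1 : S_C1)
    (hCX : S_CX) (hMX : S_MX) : S_MAIN := by
  intro k n hk E hE hb hR
  exact main_aux hGP hRS2 hRS3 hC0 hC1 hCX hMX k n hk E.card E rfl hE hb hR

end Pool.Agent.H176RC
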