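import Pool.Agent.H176RC.Defs

/-! Task MC (helper666): independence is the nonvanishing of the Gram determinant. -/

set_option autoImplicit false

namespace Pool.Agent.H176RC

open Finset

namespace MCaux

/-- Gram matrix of a family of vectors -/
noncomputable def gram {ι n m R : Type*} [Fintype n] [Fintype m] [CommRing R]
    (r : ι → n → m → R) : Matrix ι ι R :=
  Matrix.of fun e e' => ∑ v, ∑ a, r e v a * r e' v a

theorem indep_iff {ι n m : Type*} [Fintype ι] [DecidableEq ι] [Fintype n] [Fintype m]
    (r : ι → n → m → ℝ) : LinearIndependent ℝ r ↔ (gram r).det ≠ 0 := by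
  have key : ∀ (c : ι → ℝ) (e' : ι), Matrix.vecMul c (gram r) e' =
      ∑ v, ∑ a, (∑ e, c e • r e) v a * r e' v a := by
    intro c e'
    simp only [Matrix.vecMul, dotProduct, gram, Matrix.of_apply, Finset.sum_apply, Pi.smul_apply,
      smul_eq_mul]
    calc ∑ e, c e * ∑ v, ∑ a, r e v a * r e' v a
        = ∑ e, ∑ v, ∑ a, c e * r e v a * r e' v a := by
          refine Finset.sum_congr rfl fun e _ => ?_
          rw [Finset.mul_sum]
          refine Finset.sum_congr rfl fun v _ => ?_
          rw [Finset.mul_sum]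
          exact Finset.sum_congr rfl fun a _ => by ring
      _ = ∑ v, ∑ e, ∑ a, c e * r e v a * r e' v a := Finset.sum_comm
      _ = ∑ v, ∑ a, ∑ e, c e * r e v a * r e' v a :=
          Finset.sum_congr rfl fun v _ => Finset.sum_comm
      _ = ∑ v, ∑ a, (∑ e, c e * r e v a) * r e' v a := by
          refine Finset.sum_congr rfl fun v _ => Finset.sum_congr rfl fun a _ => ?_
          rw [Finset.sum_mul]
  constructor
  · intro h hdet
    obtain ⟨c, hc, hc0⟩ := Matrix.exists_vecMul_eq_zero_iff.2 hdet
    apply hc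
    have h1 : ∑ v, ∑ a, (∑ e, c e • r e) v a * (∑ e, c e • r e) v a = 0 := by
      calc ∑ v, ∑ a, (∑ e, c e • r e) v a * (∑ e, c e • r e) v a
          = ∑ v, ∑ a, ∑ e', c e' * ((∑ e, c e • r e) v a * r e' v a) := by
            refine Finset.sum_congr rfl fun v _ => Finset.sum_congr rfl fun a _ => ?_
            conv_lhs => rw [mul_comm]
            have : (∑ e, c e • r e) v a = ∑ e, c e * r e v a := by
              simp only [Finset.sum_apply, Pi.smul_apply, smul_eq_mul]
            nth_rewrite 1 [this]
            rw [Finset.sum_mul]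
            exact Finset.sum_congr rfl fun e _ => by ring
        _ = ∑ v, ∑ e', ∑ a, c e' * ((∑ e, c e • r e) v a * r e' v a) :=
            Finset.sum_congr rfl fun v _ => Finset.sum_comm
        _ = ∑ e', ∑ v, ∑ a, c e' * ((∑ e, c e • r e) v a * r e' v a) := Finset.sum_comm
        _ = ∑ e', c e' * Matrix.vecMul c (gram r) e' := by
            refine Finset.sum_congr rfl fun e' _ => ?_
            rw [key, Finset.mul_sum]
            refine Finset.sum_congr rfl fun v _ => ?_
            rw [Finset.mul_sum]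
        _ = 0 := by rw [hc0]; simp
    have h2 : ∀ v a, (∑ e, c e • r e) v a = 0 := by
      intro v a
      have h3 := (Finset.sum_eq_zero_iff_of_nonneg (fun v _ => Finset.sum_nonneg
        fun a _ => mul_self_nonneg _)).1 h1 v (Finset.mem_univ v)
      have h4 := (Finset.sum_eq_zero_iff_of_nonneg (fun a _ => mul_self_nonneg _)).1 h3 a
        (Finset.mem_univ a)
      exact mul_self_eq_zero.1 h4
    have h5 : ∑ e, c e • r e = 0 := by
      funext v a
      exact h2 v a
    funext e
    exact (Fintype.linearIndependent_iff.1 h) c h5 e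
  · intro hdet
    rw [Fintype.linearIndependent_iff]
    intro c hc
    have h1 : Matrix.vecMul c (gram r) = 0 := by
      funext e'
      rw [key, hc]
      simp
    by_contra hne
    push Not at hne
    obtain ⟨e, he⟩ := hne
    exact hdet (Matrix.exists_vecMul_eq_zero_iff.1 ⟨c, fun h => he (by rw [h]; rfl), h1⟩)

/-- the row as a polynomial -/
noncomputable def rowP {n : ℕ} (k : ℕ) (i j : Fin n) :
    Fin n → Fin (k + 1) → MvPolynomial (Fin n × Fin 2) ℚ :=
  fun v a =>
    if v = i then (MvPolynomial.X (i, 0) - MvPolynomial.X (j, 0)) ^ (k - (a : ℕ)) *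
      (MvPolynomial.X (i, 1) - MvPolynomial.X (j, 1)) ^ (a : ℕ)
    else if v = j then -((MvPolynomial.X (i, 0) - MvPolynomial.X (j, 0)) ^ (k - (a : ℕ)) *
      (MvPolynomial.X (i, 1) - MvPolynomial.X (j, 1)) ^ (a : ℕ)) else 0

theorem aeval_rowP {n : ℕ} (k : ℕ) (q : Fin n → Fin 2 → ℝ) (i j : Fin n) (v : Fin n)
    (a : Fin (k + 1)) :
    MvPolynomial.aeval (fun x : Fin n × Fin 2 => q x.1 x.2) (rowP k i j v a) = rowC k q i j v a := by
  unfold rowP rowC Dv
  split_ifs <;> simp

end MCaux

open MCaux in
theorem MC : S_MC := by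
  classical
  intro k n E q₀ h₀
  let G : Matrix ↥E ↥E (MvPolynomial (Fin n × Fin 2) ℚ) := gram (fun e : ↥E => rowP k e.1.1 e.1.2)
  have hG : ∀ q : Fin n → Fin 2 → ℝ,
      MvPolynomial.aeval (fun x : Fin n × Fin 2 => q x.1 x.2) G.det =
        (gram (fun e : ↥E => rowC k q e.1.1 e.1.2)).det := by
    intro q
    rw [AlgHom.map_det]
    congr 1
    ext e e'
    simp only [G, gram, AlgHom.mapMatrix_apply, Matrix.map_apply, Matrix.of_apply, map_sum, map_mul,
      aeval_rowP]
  refine ⟨G.det, ?_, fun q hq => ?_⟩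
  · rw [hG]
    exact (indep_iff _).1 h₀
  · rw [hG] at hq
    exact (indep_iff _).2 hq

end Pool.Agent.H176RC
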