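import Pool.Agent.H176RC.Defs

set_option autoImplicit false

/-! Task MR (helper131): independence in the rigidity matrix is the nonvanishing of a polynomial. -/

namespace Pool.Agent.H176RC

open Finset


namespace MRaux

variable {n k : ℕ}

/-- the rigidity matrix -/
def A (E : Finset (Fin n × Fin n)) (p : Fin n → Fin k → ℝ) : Matrix ↥E (Fin n × Fin k) ℝ :=
  fun e c => rowR k p e.1.1 e.1.2 c.1 c.2

/-- the matrix of polynomials -/
noncomputable def AX (E : Finset (Fin n × Fin n)) :
    Matrix ↥E (Fin n × Fin k) (MvPolynomial (Fin n × Fin k) ℝ) :=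
  fun e c => if c.1 = e.1.1 then MvPolynomial.X (e.1.1, c.2) - MvPolynomial.X (e.1.2, c.2)
    else if c.1 = e.1.2 then MvPolynomial.X (e.1.2, c.2) - MvPolynomial.X (e.1.1, c.2) else 0

theorem eval_AX (E : Finset (Fin n × Fin n)) (p : Fin n → Fin k → ℝ) :
    (AX E).map (MvPolynomial.eval (fun x : Fin n × Fin k => p x.1 x.2)) = A E p := by
  ext e c
  simp only [AX, A, rowR, Matrix.map_apply]
  split_ifs <;> simp

theorem rind_iff (E : Finset (Fin n × Fin n)) (p : Fin n → Fin k → ℝ) :
    RInd k E p ↔ LinearIndependent ℝ (A E p).row := by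
  unfold RInd
  have h := LinearMap.linearIndependent_iff
    (LinearEquiv.curry ℝ ℝ (Fin n) (Fin k)).toLinearMap (v := (A E p).row)
    (LinearEquiv.ker _)
  rw [← h]
  rfl

/-- the Gram type matrix -/
noncomputable def G (E : Finset (Fin n × Fin n)) (p₀ : Fin n → Fin k → ℝ) :
    Matrix ↥E ↥E (MvPolynomial (Fin n × Fin k) ℝ) :=
  @HMul.hMul (Matrix ↥E (Fin n × Fin k) (MvPolynomial (Fin n × Fin k) ℝ))
    (Matrix (Fin n × Fin k) ↥E (MvPolynomial (Fin n × Fin k) ℝ)) _
    Matrix.instHMulOfFintypeOfMulOfAddCommMonoid (AX E)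
    ((A E p₀).transpose.map MvPolynomial.C)

theorem eval_G (E : Finset (Fin n × Fin n)) (p₀ p : Fin n → Fin k → ℝ) :
    MvPolynomial.eval (fun x : Fin n × Fin k => p x.1 x.2) (G E p₀).det =
      (A E p * (A E p₀).transpose : Matrix ↥E ↥E ℝ).det := by
  rw [RingHom.map_det, RingHom.mapMatrix_apply]
  congr 1
  rw [G, Matrix.map_mul, eval_AX, Matrix.map_map]
  have h1 : (MvPolynomial.eval (fun x : Fin n × Fin k => p x.1 x.2)) ∘ MvPolynomial.C
        = (id : ℝ → ℝ) := by
      funext x; simp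
  rw [h1, Matrix.map_id]

end MRaux

open MRaux in
theorem MR : S_MR := by
  classical
  intro k n E p₀ h₀
  rw [rind_iff] at h₀
  refine ⟨(G E p₀).det, ?_, ?_⟩
  · rw [eval_G]
    have hr : (A E p₀ * (A E p₀).transpose : Matrix ↥E ↥E ℝ).rank = Fintype.card ↥E := by
      rw [Matrix.rank_self_mul_transpose]
      exact h₀.rank_matrix
    intro hd
    rw [Matrix.rank_eq_finrank_span_row] at hr
    have h2 := (linearIndependent_iff_card_eq_finrank_span
      (b := (A E p₀ * (A E p₀).transpose : Matrix ↥E ↥E ℝ).row)).2 hr.symm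
    have h3 := Matrix.linearIndependent_rows_iff_isUnit.1 h2
    rw [Matrix.isUnit_iff_isUnit_det, hd] at h3
    exact not_isUnit_zero h3
  · intro p hp
    rw [eval_G] at hp
    rw [rind_iff, ← Matrix.vecMul_injective_iff]
    have h2 : Function.Injective (fun v => Matrix.vecMul v
        (A E p * (A E p₀).transpose : Matrix ↥E ↥E ℝ)) := by
      exact Matrix.vecMul_injective_iff_isUnit.2
        ((Matrix.isUnit_iff_isUnit_det _).2 (isUnit_iff_ne_zero.2 hp))
    intro v w hvw
    apply h2
    have hvw' : Matrix.vecMul v (A E p) = Matrix.vecMul w (A E p) := hvw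
    simp only [← Matrix.vecMul_vecMul, hvw']

end Pool.Agent.H176RC
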