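import Pool.Agent.H176RC.Defs

set_option autoImplicit false

/-! Task MX: Maxwell's count -/

namespace Pool.Agent.H176RC

open Finset

namespace MXaux

variable {n : ℕ}

theorem rowR_symm (k : ℕ) (p : Fin n → Fin k → ℝ) (i j : Fin n) :
    rowR k p i j = rowR k p j i := by
  funext v a
  unfold rowR
  by_cases h1 : v = i
  · by_cases h2 : v = j
    · rw [if_pos h1, if_pos h2, ← h1, ← h2]
    · rw [if_pos h1, if_neg h2, if_pos h1]
  · by_cases h2 : v = j
    · rw [if_neg h1, if_pos h2, if_pos h2]
    · rw [if_neg h1, if_neg h2, if_neg h2, if_neg h1]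

/-- the span of the rows of the complete graph on `S` -/
def R (k : ℕ) (p : Fin n → Fin k → ℝ) (S : Finset (Fin n)) :
    Submodule ℝ (Fin n → Fin k → ℝ) :=
  Submodule.span ℝ {x | ∃ i ∈ S, ∃ j ∈ S, i ≠ j ∧ rowR k p i j = x}

theorem mem_R (k : ℕ) (p : Fin n → Fin k → ℝ) (S : Finset (Fin n)) (i j : Fin n) (hi : i ∈ S)
    (hj : j ∈ S) (hij : i ≠ j) : rowR k p i j ∈ R k p S :=
  Submodule.subset_span ⟨i, hi, j, hj, hij, rfl⟩

theorem card_lt (S : Finset (Fin n)) :
    2 * ((S ×ˢ S).filter (fun e => e.1 < e.2)).card + S.card = S.card * S.card := by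
  have h1 : ((S ×ˢ S).filter (fun e => e.1 < e.2)).card =
      ((S ×ˢ S).filter (fun e => e.2 < e.1)).card := by
    refine Finset.card_bij' (fun e _ => e.swap) (fun e _ => e.swap) ?_ ?_ ?_ ?_ <;>
      simp +contextual
  have h2 : S.offDiag = (S ×ˢ S).filter (fun e => e.1 < e.2) ∪
      (S ×ˢ S).filter (fun e => e.2 < e.1) := by
    ext ⟨a, b⟩
    simp only [mem_offDiag, mem_union, mem_filter, mem_product]
    constructor
    · rintro ⟨ha, hb, hab⟩
      rcases lt_or_gt_of_ne hab with h | h
      · exact Or.inl ⟨⟨ha, hb⟩, h⟩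
      · exact Or.inr ⟨⟨ha, hb⟩, h⟩
    · rintro (⟨⟨ha, hb⟩, h⟩ | ⟨⟨ha, hb⟩, h⟩)
      · exact ⟨ha, hb, h.ne⟩
      · exact ⟨ha, hb, h.ne'⟩
  have h3 : Disjoint ((S ×ˢ S).filter (fun e => e.1 < e.2))
      ((S ×ˢ S).filter (fun e => e.2 < e.1)) := by
    rw [Finset.disjoint_left]
    intro e he he'
    exact lt_asymm (mem_filter.1 he).2 (mem_filter.1 he').2
  have h4 := S.offDiag_card
  rw [h2, card_union_of_disjoint h3, ← h1] at h4
  have h5 : S.card ≤ S.card * S.card := Nat.le_mul_self _
  omega

theorem base (k : ℕ) (p : Fin n → Fin k → ℝ) (S : Finset (Fin n)) :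
    Module.finrank ℝ (R k p S) ≤ ((S ×ˢ S).filter (fun e => e.1 < e.2)).card := by
  classical
  set T : Finset (Fin n → Fin k → ℝ) :=
    ((S ×ˢ S).filter (fun e => e.1 < e.2)).image (fun e => rowR k p e.1 e.2) with hT
  have h1 : R k p S ≤ Submodule.span ℝ (T : Set (Fin n → Fin k → ℝ)) := by
    unfold R
    rw [Submodule.span_le]
    rintro x ⟨i, hi, j, hj, hij, rfl⟩
    apply Submodule.subset_span
    rw [hT, coe_image]
    rcases lt_or_gt_of_ne hij with h | h
    · exact ⟨(i, j), by simp [hi, hj, h], rfl⟩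
    · exact ⟨(j, i), by simp [hi, hj, h], rowR_symm k p j i⟩
  calc Module.finrank ℝ (R k p S) ≤ Module.finrank ℝ
        (Submodule.span ℝ (T : Set (Fin n → Fin k → ℝ))) := Submodule.finrank_mono h1
    _ ≤ T.card := finrank_span_finset_le_card T
    _ ≤ _ := card_image_le

theorem step (hK : S_K) (k : ℕ) (p : Fin n → Fin k → ℝ) (hp : GP k p) (S : Finset (Fin n))
    (hS : k ≤ S.card) (v : Fin n) (hv : v ∉ S) :
    Module.finrank ℝ (R k p (insert v S)) ≤ Module.finrank ℝ (R k p S) + k := by
  classical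
  obtain ⟨W, hWS, hWk⟩ := Finset.exists_subset_card_eq hS
  set T : Finset (Fin n → Fin k → ℝ) := W.image (fun w => rowR k p v w) with hT
  have hTmem : ∀ w ∈ W, rowR k p v w ∈ R k p S ⊔ Submodule.span ℝ
      (T : Set (Fin n → Fin k → ℝ)) := by
    intro w hw
    apply Submodule.mem_sup_right
    apply Submodule.subset_span
    rw [hT, coe_image]
    exact ⟨w, hw, rfl⟩
  have hstar : ∀ w ∈ S, rowR k p v w ∈ R k p S ⊔ Submodule.span ℝ
      (T : Set (Fin n → Fin k → ℝ)) := by
    intro w hw
    by_cases hwW : w ∈ W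
    · exact hTmem w hwW
    have hvW : v ∉ W := fun h => hv (hWS h)
    have hvw : v ≠ w := fun h => hv (h ▸ hw)
    have hcard : (insert v (insert w W)).card = k + 2 := by
      rw [card_insert_of_notMem, card_insert_of_notMem hwW, hWk]
      rw [mem_insert, not_or]
      exact ⟨hvw, hvW⟩
    obtain ⟨ω, hω, hsum⟩ := hK k n p hp _ hcard
    have hvm : v ∈ insert v (insert w W) := mem_insert_self _ _
    have hwm : w ∈ insert v (insert w W) := mem_insert_of_mem (mem_insert_self _ _)
    have he0 : ed v w ∈ ((insert v (insert w W)) ×ˢ (insert v (insert w W))).filter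
        (fun e => e.1 < e.2) := by
      rw [mem_filter, mem_product]
      rcases lt_or_gt_of_ne hvw with h | h
      · simp only [ed, min_eq_left h.le, max_eq_right h.le]
        exact ⟨⟨hvm, hwm⟩, h⟩
      · simp only [ed, min_eq_right h.le, max_eq_left h.le]
        exact ⟨⟨hwm, hvm⟩, h⟩
    have hrow : rowR k p (ed v w).1 (ed v w).2 = rowR k p v w := by
      rcases lt_or_gt_of_ne hvw with h | h
      · simp only [ed, min_eq_left h.le, max_eq_right h.le]
      · simp only [ed, min_eq_right h.le, max_eq_left h.le]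
        exact rowR_symm k p w v
    have hω0 : ω (ed v w).1 (ed v w).2 ≠ 0 := by
      rcases lt_or_gt_of_ne hvw with h | h
      · simp only [ed, min_eq_left h.le, max_eq_right h.le]
        exact hω v hvm w hwm hvw
      · simp only [ed, min_eq_right h.le, max_eq_left h.le]
        exact hω w hwm v hvm hvw.symm
    rw [← Finset.add_sum_erase _ _ he0, hrow] at hsum
    have h1 : rowR k p v w = -((ω (ed v w).1 (ed v w).2)⁻¹ •
        ∑ e ∈ (((insert v (insert w W)) ×ˢ (insert v (insert w W))).filter
          (fun e => e.1 < e.2)).erase (ed v w), ω e.1 e.2 • rowR k p e.1 e.2) := by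
      rw [eq_neg_of_add_eq_zero_right hsum, smul_neg, neg_neg, smul_smul, inv_mul_cancel₀ hω0,
        one_smul]
    rw [h1]
    refine Submodule.neg_mem _ (Submodule.smul_mem _ _ (Submodule.sum_mem _ fun e he => ?_))
    apply Submodule.smul_mem
    rw [mem_erase, mem_filter, mem_product] at he
    obtain ⟨hne, ⟨h2, h3⟩, hlt⟩ := he
    have hW1S : ∀ x ∈ insert w W, x ∈ S := by
      intro x hx
      rcases mem_insert.1 hx with rfl | hx
      · exact hw
      · exact hWS hx
    rcases mem_insert.1 h2 with h4 | h4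
    · rcases mem_insert.1 h3 with h5 | h5
      · exact absurd (h4.trans h5.symm) hlt.ne
      · rcases mem_insert.1 h5 with h6 | h6
        · exfalso
          apply hne
          rw [h4, h6] at hlt
          rw [ed, min_eq_left hlt.le, max_eq_right hlt.le]
          exact Prod.ext h4 h6
        · rw [h4]
          exact hTmem _ h6
    · rcases mem_insert.1 h3 with h5 | h5
      · rcases mem_insert.1 h4 with h6 | h6
        · exfalso
          apply hne
          rw [h5, h6] at hlt
          rw [ed, min_eq_right hlt.le, max_eq_left hlt.le]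
          exact Prod.ext h6 h5
        · rw [h5, rowR_symm]
          exact hTmem _ h6
      · exact Submodule.mem_sup_left (mem_R k p S _ _ (hW1S _ h4) (hW1S _ h5) hlt.ne)
  have hle : R k p (insert v S) ≤ R k p S ⊔ Submodule.span ℝ
      (T : Set (Fin n → Fin k → ℝ)) := by
    have h0 : R k p (insert v S) = Submodule.span ℝ
      {x | ∃ i ∈ insert v S, ∃ j ∈ insert v S, i ≠ j ∧ rowR k p i j = x} := rfl
    rw [h0, Submodule.span_le]
    rintro x ⟨i, hi, j, hj, hij, rfl⟩
    rcases mem_insert.1 hi with h1 | h1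
    · rcases mem_insert.1 hj with h2 | h2
      · exact absurd (h1.trans h2.symm) hij
      · rw [h1]
        exact hstar _ h2
    · rcases mem_insert.1 hj with h2 | h2
      · rw [h2, rowR_symm]
        exact hstar _ h1
      · exact Submodule.mem_sup_left (mem_R k p S _ _ h1 h2 hij)
  calc Module.finrank ℝ (R k p (insert v S)) ≤ Module.finrank ℝ
        (R k p S ⊔ Submodule.span ℝ (T : Set (Fin n → Fin k → ℝ)) :
          Submodule ℝ (Fin n → Fin k → ℝ)) := Submodule.finrank_mono hle
    _ ≤ Module.finrank ℝ (R k p S) + Module.finrank ℝ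
        (Submodule.span ℝ (T : Set (Fin n → Fin k → ℝ))) := Submodule.finrank_add_le_finrank_add_finrank _ _
    _ ≤ Module.finrank ℝ (R k p S) + k := by
        have h1 : T.card ≤ k := card_image_le.trans hWk.le
        have h2 : Module.finrank ℝ
            (Submodule.span ℝ (T : Set (Fin n → Fin k → ℝ))) ≤ T.card :=
          finrank_span_finset_le_card (R := ℝ) T
        omega

theorem rank_le (hK : S_K) (k : ℕ) (p : Fin n → Fin k → ℝ) (hp : GP k p) :
    ∀ (m : ℕ) (S : Finset (Fin n)), S.card = k + m →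
      2 * Module.finrank ℝ (R k p S) + k * (k + 1) ≤ 2 * k * (k + m) := by
  intro m
  induction m with
  | zero =>
    intro S hS
    have h1 := base k p S
    have h2 := card_lt S
    rw [hS] at h2
    nlinarith
  | succ m ih =>
    intro S hS
    obtain ⟨v, hv⟩ : S.Nonempty := by
      rw [← card_pos]; omega
    have h1 : (S.erase v).card = k + m := by
      rw [card_erase_of_mem hv]; omega
    have h2 := ih _ h1
    have h3 := step hK k p hp (S.erase v) (by omega) v (notMem_erase v S)
    rw [insert_erase hv] at h3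
    nlinarith

end MXaux

open MXaux in
theorem MX (hK : S_K) (hGP : S_GP) : S_MX := by
  intro k n E hE hex hk
  obtain ⟨p, hp, hgp⟩ := hGP k n E hex
  set H := univ.filter (fun v => (nb E v).Nonempty) with hH
  obtain ⟨m, hm⟩ := Nat.exists_eq_add_of_le hk
  have h1 := rank_le hK k p hgp m H hm
  have hmem : ∀ e : ↥E, rowR k p e.1.1 e.1.2 ∈ R k p H := by
    rintro ⟨e, he⟩
    have hlt := hE e he
    have h2 : e.1 ∈ H := by
      rw [hH, mem_filter]
      refine ⟨mem_univ _, e.2, ?_⟩
      rw [nb, mem_filter]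
      refine ⟨mem_univ _, ?_⟩
      rw [ed, min_eq_left hlt.le, max_eq_right hlt.le]
      exact he
    have h3 : e.2 ∈ H := by
      rw [hH, mem_filter]
      refine ⟨mem_univ _, e.1, ?_⟩
      rw [nb, mem_filter]
      refine ⟨mem_univ _, ?_⟩
      rw [ed, min_eq_right hlt.le, max_eq_left hlt.le]
      exact he
    exact mem_R k p H _ _ h2 h3 hlt.ne
  have h2 : LinearIndependent ℝ (fun e : ↥E => (⟨rowR k p e.1.1 e.1.2, hmem e⟩ : R k p H)) := by
    apply LinearIndependent.of_comp (R k p H).subtype
    exact hp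
  have h3 := h2.fintype_card_le_finrank
  rw [Fintype.card_coe] at h3
  rw [hm]
  linarith

end Pool.Agent.H176RC
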