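import Pool.Agent.H176RC.Defs

set_option autoImplicit false

namespace Pool.Agent.H176RC

open Finset

theorem NZ : S_NZ := by
  intro σ ι _ _ P hP
  classical
  have := Fintype.ofFinite ι
  have hprod : (∏ i, P i) ≠ 0 := Finset.prod_ne_zero_iff.2 fun i _ => hP i
  by_contra hcon
  push Not at hcon
  apply hprod
  refine MvPolynomial.funext fun x => ?_
  obtain ⟨i, hi⟩ := hcon x
  rw [map_prod, map_zero]
  exact Finset.prod_eq_zero (mem_univ i) hi

end Pool.Agent.H176RC
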