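import Pool.Agent.H176RC.Defs

/-! Task RS (helper862): removing a vertex of degree `k+2` or `k+3` in the rigidity matroid. -/

set_option autoImplicit false

namespace Pool.Agent.H176RC

open Finset

namespace RSh

variable {n k : ℕ} {Q : Type} [AddCommGroup Q] [Module ℝ Q] {ρ : Fin n → Fin n → Q} {v : Fin n}
  {N : Finset (Fin n)}

/-- edges of the complete graph on `W` -/
def KK (W : Finset (Fin n)) : Finset (Fin n × Fin n) := (W ×ˢ W).filter (fun e => e.1 < e.2)

def Par (x y : Q) : Prop := (∃ t : ℝ, x = t • y) ∨ ∃ t : ℝ, y = t • x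

theorem Par.ne {x y : Q} (h : Par x y) (hx : x ≠ 0) (hy : y ≠ 0) : ∃ t : ℝ, t ≠ 0 ∧ x = t • y := by
  rcases h with ⟨t, ht⟩ | ⟨t, ht⟩
  · refine ⟨t, ?_, ht⟩
    rintro rfl
    rw [zero_smul] at ht
    exact hx ht
  · have ht0 : t ≠ 0 := by
      rintro rfl
      rw [zero_smul] at ht
      exact hy ht
    refine ⟨t⁻¹, inv_ne_zero ht0, ?_⟩
    rw [ht, smul_smul, inv_mul_cancel₀ ht0, one_smul]

def Ind3 (x y z : Q) : Prop :=
  ∀ α β γ : ℝ, α • x + β • y + γ • z = 0 → α = 0 ∧ β = 0 ∧ γ = 0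

def Str (k : ℕ) (ρ : Fin n → Fin n → Q) : Prop :=
  ∀ W : Finset (Fin n), W.card = k + 2 → ∃ ω : Fin n → Fin n → ℝ,
    (∀ i ∈ W, ∀ j ∈ W, i ≠ j → ω i j ≠ 0) ∧ ∑ e ∈ KK W, ω e.1 e.2 • ρ e.1 e.2 = 0

omit [AddCommGroup Q] [Module ℝ Q] in
theorem ed_rho (hs : ∀ a b, ρ a b = ρ b a) (a b : Fin n) : ρ (ed a b).1 (ed a b).2 = ρ a b := by
  unfold ed
  rcases le_total a b with h | h
  · simp [min_eq_left h, max_eq_right h]
  · simp only [min_eq_right h, max_eq_left h]
    exact hs b a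

theorem KK_insert {W : Finset (Fin n)} (hv : v ∉ W) :
    KK (insert v W) = W.image (ed v) ∪ KK W := by
  ext ⟨i, j⟩
  simp only [KK, ed, mem_filter, mem_product, mem_insert, mem_union, mem_image, Prod.mk.injEq]
  constructor
  · rintro ⟨⟨hi | hi, hj | hj⟩, hij⟩
    · rw [hi, hj] at hij
      exact absurd hij (lt_irrefl _)
    · left
      subst hi
      exact ⟨j, hj, min_eq_left hij.le, max_eq_right hij.le⟩
    · left
      subst hj
      exact ⟨i, hi, min_eq_right hij.le, max_eq_left hij.le⟩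
    · right
      exact ⟨⟨hi, hj⟩, hij⟩
  · rintro (⟨w, hw, h1, h2⟩ | ⟨⟨hi, hj⟩, hij⟩)
    · have hne : v ≠ w := fun h => hv (h ▸ hw)
      rcases lt_or_gt_of_ne hne with h | h
      · rw [min_eq_left h.le] at h1
        rw [max_eq_right h.le] at h2
        subst h1 h2
        exact ⟨⟨Or.inl rfl, Or.inr hw⟩, h⟩
      · rw [min_eq_right h.le] at h1
        rw [max_eq_left h.le] at h2
        subst h1 h2
        exact ⟨⟨Or.inr hw, Or.inl rfl⟩, h⟩
    · exact ⟨⟨Or.inr hi, Or.inr hj⟩, hij⟩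

theorem ed_inj {W : Finset (Fin n)} (hv : v ∉ W) : Set.InjOn (ed v) (W : Set (Fin n)) := by
  intro a ha b hb h
  have ha' : v ≠ a := fun h => hv (h ▸ ha)
  have hb' : v ≠ b := fun h => hv (h ▸ hb)
  simp only [ed, Prod.mk.injEq] at h
  rcases lt_or_gt_of_ne ha' with h1 | h1 <;> rcases lt_or_gt_of_ne hb' with h2 | h2
  · rw [max_eq_right h1.le, max_eq_right h2.le] at h
    exact h.2
  · rw [max_eq_right h1.le, max_eq_left h2.le] at h
    exact absurd h.2.symm ha'
  · rw [max_eq_left h1.le, max_eq_right h2.le] at h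
    exact absurd h.2 hb'
  · rw [min_eq_right h1.le, min_eq_right h2.le] at h
    exact h.1

theorem KK_disj {W : Finset (Fin n)} (hv : v ∉ W) : Disjoint (W.image (ed v)) (KK W) := by
  rw [Finset.disjoint_left]
  intro e he he2
  rw [mem_image] at he
  obtain ⟨w, _, rfl⟩ := he
  simp only [KK, mem_filter, mem_product, ed] at he2
  rcases le_total v w with h | h
  · rw [min_eq_left h] at he2
    exact hv he2.1.1
  · rw [max_eq_left h] at he2
    exact hv he2.1.2

/-- the star of `v` over `k+1` neighbours -/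
theorem star (hs : ∀ a b, ρ a b = ρ b a) (hstr : Str k ρ) (hv : v ∉ N) {W : Finset (Fin n)}
    (hW : W ⊆ N) (hc : W.card = k + 1) :
    ∃ c : Fin n → ℝ, (∀ w ∈ W, c w ≠ 0) ∧ (∀ w, w ∉ W → c w = 0) ∧
      ∑ w ∈ N, c w • ρ v w ∈
        Submodule.span ℝ {x | ∃ a ∈ W, ∃ b ∈ W, a ≠ b ∧ x = ρ a b} := by
  have hvW : v ∉ W := fun h => hv (hW h)
  obtain ⟨ω, h1, h2⟩ := hstr (insert v W) (by rw [card_insert_of_notMem hvW, hc])
  rw [KK_insert hvW, sum_union (KK_disj hvW), sum_image (ed_inj hvW)] at h2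
  refine ⟨fun w => if w ∈ W then ω (ed v w).1 (ed v w).2 else 0, ?_, ?_, ?_⟩
  · intro w hw
    simp only [if_pos hw]
    have hne : v ≠ w := fun h => hvW (h ▸ hw)
    unfold ed
    rcases lt_or_gt_of_ne hne with h | h
    · simp only [min_eq_left h.le, max_eq_right h.le]
      exact h1 v (mem_insert_self _ _) w (mem_insert_of_mem hw) hne
    · simp only [min_eq_right h.le, max_eq_left h.le]
      exact h1 w (mem_insert_of_mem hw) v (mem_insert_self _ _) hne.symm
  · intro w hw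
    simp only [if_neg hw]
  · have h3 : ∑ w ∈ N, (if w ∈ W then ω (ed v w).1 (ed v w).2 else 0) • ρ v w =
        ∑ w ∈ W, ω (ed v w).1 (ed v w).2 • ρ (ed v w).1 (ed v w).2 := by
      rw [← sum_subset hW]
      · refine sum_congr rfl fun w hw => ?_
        rw [if_pos hw, ed_rho hs]
      · intro w _ hw
        rw [if_neg hw, zero_smul]
    rw [h3, eq_neg_of_add_eq_zero_left h2]
    refine Submodule.neg_mem _ (Submodule.sum_mem _ fun e he => Submodule.smul_mem _ _ ?_)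
    apply Submodule.subset_span
    simp only [KK, mem_filter, mem_product] at he
    exact ⟨e.1, he.1.1, e.2, he.1.2, ne_of_lt he.2, rfl⟩

/-- there are nonloops inside every set of `k+1` neighbours -/
theorem nonloop (hs : ∀ a b, ρ a b = ρ b a) (hstr : Str k ρ) (hv : v ∉ N)
    (hI : LinearIndependent ℝ (fun w : ↥N => ρ v w)) {W : Finset (Fin n)}
    (hW : W ⊆ N) (hc : W.card = k + 1) : ∃ a ∈ W, ∃ b ∈ W, a ≠ b ∧ ρ a b ≠ 0 := by
  by_contra hcon
  push Not at hcon
  obtain ⟨c, h1, _, h3⟩ := star hs hstr hv hW hc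
  have h4 : Submodule.span ℝ {x | ∃ a ∈ W, ∃ b ∈ W, a ≠ b ∧ x = ρ a b} = ⊥ := by
    rw [Submodule.span_eq_bot]
    rintro x ⟨a, ha, b, hb, hab, rfl⟩
    exact hcon a ha b hb hab
  rw [h4, Submodule.mem_bot] at h3
  rw [← sum_coe_sort N (fun w => c w • ρ v w)] at h3
  have h5 := (Fintype.linearIndependent_iff.1 hI) (fun w => c w) h3
  have hne : W.Nonempty := by
    rw [← card_pos, hc]; omega
  obtain ⟨w, hw⟩ := hne
  exact h1 w hw (h5 ⟨w, hW hw⟩)

theorem ind3_iff (x y z : Q) : LinearIndependent ℝ ![x, y, z] ↔ Ind3 x y z := by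
  rw [Fintype.linearIndependent_iff]
  constructor
  · intro h α β γ h1
    have h2 := h ![α, β, γ] (by
      rw [Fin.sum_univ_three]
      simpa using h1)
    exact ⟨h2 0, h2 1, h2 2⟩
  · intro h g hg
    rw [Fin.sum_univ_three] at hg
    have h2 := h (g 0) (g 1) (g 2) (by simpa using hg)
    intro i
    fin_cases i
    · exact h2.1
    · exact h2.2.1
    · exact h2.2.2

/-- three vectors spanning a space that contains three independent vectors -/
theorem ind3_of_span {x y z s1 s2 s3 : Q} (h : Ind3 s1 s2 s3)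
    (h1 : s1 ∈ Submodule.span ℝ (Set.range ![x, y, z]))
    (h2 : s2 ∈ Submodule.span ℝ (Set.range ![x, y, z]))
    (h3 : s3 ∈ Submodule.span ℝ (Set.range ![x, y, z])) : Ind3 x y z := by
  rw [← ind3_iff] at h ⊢
  rw [linearIndependent_iff_card_le_finrank_span]
  have h4 := finrank_span_eq_card h
  rw [← h4]
  have hfin : Module.Finite ℝ (Submodule.span ℝ (Set.range ![x, y, z])) :=
    Module.Finite.span_of_finite ℝ (Set.finite_range _)
  apply Submodule.finrank_mono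
  rw [Submodule.span_le]
  rintro _ ⟨i, rfl⟩
  fin_cases i
  · exact h1
  · exact h2
  · exact h3

/-- contradiction from an independent star and the opposite nonloop -/
theorem opp (hs : ∀ a b, ρ a b = ρ b a) (hstr : Str k ρ) (hcard : N.card = k + 3)
    (hpar : ∀ a ∈ N, ∀ b ∈ N, ∀ c ∈ N, ∀ d ∈ N, a ≠ b → a ≠ c → a ≠ d → b ≠ c → b ≠ d → c ≠ d →
      Par (ρ a b) (ρ c d))
    {a b c d : Fin n} (ha : a ∈ N) (hb : b ∈ N) (hc : c ∈ N) (hd : d ∈ N) (hab : a ≠ b)
    (hac : a ≠ c) (had : a ≠ d) (hbc : b ≠ c) (hbd : b ≠ d) (hcd : c ≠ d)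
    (hI : Ind3 (ρ a b) (ρ a c) (ρ a d)) (hcd0 : ρ c d ≠ 0) : False := by
  have hab0 : ρ a b ≠ 0 := fun h => by
    have := hI 1 0 0 (by rw [h]; simp)
    exact one_ne_zero this.1
  have hac0 : ρ a c ≠ 0 := fun h => by
    have := hI 0 1 0 (by rw [h]; simp)
    exact one_ne_zero this.2.1
  have had0 : ρ a d ≠ 0 := fun h => by
    have := hI 0 0 1 (by rw [h]; simp)
    exact one_ne_zero this.2.2
  set P := Submodule.span ℝ ({ρ a c, ρ a d} : Set Q) with hP
  have hacP : ρ a c ∈ P := Submodule.subset_span (by simp)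
  have hadP : ρ a d ∈ P := Submodule.subset_span (by simp)
  -- edges that avoid `a`
  have key : ∀ x ∈ N, ∀ y ∈ N, x ≠ y → x ≠ a → y ≠ a → ¬ (x = c ∧ y = d) → ¬ (x = d ∧ y = c) →
      ρ x y ∈ P := by
    intro x hx y hy hxy hxa hya hn1 hn2
    by_cases h0 : ρ x y = 0
    · rw [h0]; exact P.zero_mem
    have h1 : x = c ∨ x = d ∨ y = c ∨ y = d := by
      by_contra hcon
      push Not at hcon
      obtain ⟨q1, q2, q3, q4⟩ := hcon
      obtain ⟨t, ht, e1⟩ := (hpar x hx y hy a ha c hc hxy hxa q1 hya q3 hac).ne h0 hac0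
      obtain ⟨t', ht', e2⟩ := (hpar x hx y hy a ha d hd hxy hxa q2 hya q4 had).ne h0 had0
      have h5 : (0 : ℝ) • ρ a b + t • ρ a c + (-t') • ρ a d = 0 := by
        rw [← e1, neg_smul, ← e2]; simp
      exact ht (hI _ _ _ h5).2.1
    have h2 : x = b ∨ x = c ∨ y = b ∨ y = c := by
      by_contra hcon
      push Not at hcon
      obtain ⟨q1, q2, q3, q4⟩ := hcon
      obtain ⟨t, ht, e1⟩ := (hpar x hx y hy a ha b hb hxy hxa q1 hya q3 hab).ne h0 hab0
      obtain ⟨t', ht', e2⟩ := (hpar x hx y hy a ha c hc hxy hxa q2 hya q4 hac).ne h0 hac0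
      have h5 : t • ρ a b + (-t') • ρ a c + (0 : ℝ) • ρ a d = 0 := by
        rw [← e1, neg_smul, ← e2]; simp
      exact ht (hI _ _ _ h5).1
    have h3 : x = b ∨ x = d ∨ y = b ∨ y = d := by
      by_contra hcon
      push Not at hcon
      obtain ⟨q1, q2, q3, q4⟩ := hcon
      obtain ⟨t, ht, e1⟩ := (hpar x hx y hy a ha b hb hxy hxa q1 hya q3 hab).ne h0 hab0
      obtain ⟨t', ht', e2⟩ := (hpar x hx y hy a ha d hd hxy hxa q2 hya q4 had).ne h0 had0
      have h5 : t • ρ a b + (0 : ℝ) • ρ a c + (-t') • ρ a d = 0 := by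
        rw [← e1, neg_smul, ← e2]; simp
      exact ht (hI _ _ _ h5).1
    have h4 : (x = b ∧ y = c) ∨ (x = c ∧ y = b) ∨ (x = b ∧ y = d) ∨ (x = d ∧ y = b) := by
      grind
    have hbcP : ρ b c ∈ P := by
      by_cases h : ρ b c = 0
      · rw [h]; exact P.zero_mem
      obtain ⟨t, _, e1⟩ := (hpar b hb c hc a ha d hd hbc hab.symm hbd hac.symm hcd had).ne h had0
      rw [e1]
      exact P.smul_mem _ hadP
    have hbdP : ρ b d ∈ P := by
      by_cases h : ρ b d = 0
      · rw [h]; exact P.zero_mem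
      obtain ⟨t, _, e1⟩ := (hpar b hb d hd a ha c hc hbd hab.symm hbc had.symm hcd.symm hac).ne h hac0
      rw [e1]
      exact P.smul_mem _ hacP
    rcases h4 with ⟨rfl, rfl⟩ | ⟨rfl, rfl⟩ | ⟨rfl, rfl⟩ | ⟨rfl, rfl⟩
    · exact hbcP
    · rw [hs]; exact hbcP
    · exact hbdP
    · rw [hs]; exact hbdP
  -- the stress
  obtain ⟨ω, w1, w2⟩ := hstr (N.erase a) (by rw [card_erase_of_mem ha, hcard]; omega)
  have hcW : c ∈ N.erase a := mem_erase.2 ⟨hac.symm, hc⟩
  have hdW : d ∈ N.erase a := mem_erase.2 ⟨had.symm, hd⟩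
  have hmem : ed c d ∈ KK (N.erase a) := by
    unfold ed KK
    rcases lt_or_gt_of_ne hcd with h | h
    · rw [min_eq_left h.le, max_eq_right h.le]
      exact mem_filter.2 ⟨mem_product.2 ⟨hcW, hdW⟩, h⟩
    · rw [min_eq_right h.le, max_eq_left h.le]
      exact mem_filter.2 ⟨mem_product.2 ⟨hdW, hcW⟩, h⟩
  rw [← add_sum_erase _ _ hmem] at w2
  have hrest : ∑ e ∈ (KK (N.erase a)).erase (ed c d), ω e.1 e.2 • ρ e.1 e.2 ∈ P := by
    refine Submodule.sum_mem _ fun e he => Submodule.smul_mem _ _ ?_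
    rw [mem_erase] at he
    obtain ⟨he1, he2⟩ := he
    unfold KK at he2
    rw [mem_filter, mem_product, mem_erase, mem_erase] at he2
    obtain ⟨⟨⟨q1, q2⟩, q3, q4⟩, q5⟩ := he2
    refine key e.1 q2 e.2 q4 (ne_of_lt q5) q1 q3 ?_ ?_
    · rintro ⟨r1, r2⟩
      apply he1
      rw [r1, r2] at q5
      unfold ed
      rw [min_eq_left q5.le, max_eq_right q5.le]
      exact Prod.ext r1 r2
    · rintro ⟨r1, r2⟩
      apply he1
      rw [r1, r2] at q5
      unfold ed
      rw [min_eq_right q5.le, max_eq_left q5.le]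
      exact Prod.ext r1 r2
  have hω : ω (ed c d).1 (ed c d).2 ≠ 0 := by
    unfold ed
    rcases lt_or_gt_of_ne hcd with h | h
    · simp only [min_eq_left h.le, max_eq_right h.le]
      exact w1 c hcW d hdW hcd
    · simp only [min_eq_right h.le, max_eq_left h.le]
      exact w1 d hdW c hcW hcd.symm
  have hcdP : ρ c d ∈ P := by
    have h5 : ω (ed c d).1 (ed c d).2 • ρ (ed c d).1 (ed c d).2 ∈ P := by
      rw [eq_neg_of_add_eq_zero_left w2]
      exact P.neg_mem hrest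
    rw [ed_rho hs] at h5
    exact (P.smul_mem_iff hω).1 h5
  obtain ⟨t, ht, e1⟩ := (hpar a ha b hb c hc d hd hab hac had hbc hbd hcd).ne hab0 hcd0
  have habP : ρ a b ∈ P := by
    rw [e1]; exact P.smul_mem _ hcdP
  rw [hP, Submodule.mem_span_pair] at habP
  obtain ⟨α, β, h6⟩ := habP
  have h7 : (-1 : ℝ) • ρ a b + α • ρ a c + β • ρ a d = 0 := by
    rw [add_assoc, h6]
    simp
  have := (hI _ _ _ h7).1
  norm_num at this

theorem par_choose {x y : Q} (h : Par x y) : ∃ u, (u = x ∨ u = y) ∧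
    x ∈ Submodule.span ℝ {u} ∧ y ∈ Submodule.span ℝ {u} := by
  rcases h with ⟨t, ht⟩ | ⟨t, ht⟩
  · refine ⟨y, Or.inr rfl, ?_, Submodule.mem_span_singleton_self y⟩
    rw [ht]
    exact Submodule.smul_mem _ _ (Submodule.mem_span_singleton_self y)
  · refine ⟨x, Or.inl rfl, Submodule.mem_span_singleton_self x, ?_⟩
    rw [ht]
    exact Submodule.smul_mem _ _ (Submodule.mem_span_singleton_self x)

theorem abs3 (hs : ∀ a b, ρ a b = ρ b a) (hstr : Str k ρ) (hv : v ∉ N)
    (hI : LinearIndependent ℝ (fun w : ↥N => ρ v w)) (hcard : N.card = k + 3) :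
    ∃ a ∈ N, ∃ b ∈ N, ∃ c ∈ N, ∃ d ∈ N, a ≠ b ∧ a ≠ c ∧ a ≠ d ∧ b ≠ c ∧ b ≠ d ∧ c ≠ d ∧
      ¬ Par (ρ a b) (ρ c d) := by
  by_contra hcon
  have hpar : ∀ a ∈ N, ∀ b ∈ N, ∀ c ∈ N, ∀ d ∈ N, a ≠ b → a ≠ c → a ≠ d → b ≠ c → b ≠ d → c ≠ d →
      Par (ρ a b) (ρ c d) := by
    intro a ha b hb c hc d hd h1 h2 h3 h4 h5 h6
    by_contra h
    exact hcon ⟨a, ha, b, hb, c, hc, d, hd, h1, h2, h3, h4, h5, h6, h⟩
  have herase : ∀ x ∈ N, ∀ y ∈ N, x ≠ y → ((N.erase x).erase y) ⊆ N ∧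
      ((N.erase x).erase y).card = k + 1 := by
    intro x hx y hy hxy
    refine ⟨(erase_subset _ _).trans (erase_subset _ _), ?_⟩
    rw [card_erase_of_mem (mem_erase.2 ⟨hxy.symm, hy⟩), card_erase_of_mem hx, hcard]
    omega
  -- a first nonloop
  obtain ⟨x0, hx0, y0, hy0, hxy0⟩ : ∃ x ∈ N, ∃ y ∈ N, x ≠ y := by
    have : 1 < N.card := by omega
    obtain ⟨x, hx, y, hy, hxy⟩ := Finset.one_lt_card.1 this
    exact ⟨x, hx, y, hy, hxy⟩
  obtain ⟨a, ha', b, hb', hab, hab0⟩ := nonloop hs hstr hv hI (herase x0 hx0 y0 hy0 hxy0).1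
    (herase x0 hx0 y0 hy0 hxy0).2
  have ha := (herase x0 hx0 y0 hy0 hxy0).1 ha'
  have hb := (herase x0 hx0 y0 hy0 hxy0).1 hb'
  -- a disjoint nonloop
  obtain ⟨c, hc', d, hd', hcd, hcd0⟩ := nonloop hs hstr hv hI (herase a ha b hb hab).1
    (herase a ha b hb hab).2
  have hc := (herase a ha b hb hab).1 hc'
  have hd := (herase a ha b hb hab).1 hd'
  rw [mem_erase, mem_erase] at hc' hd'
  have hbc : b ≠ c := fun h => hc'.1 h.symm
  have hac : a ≠ c := fun h => hc'.2.1 h.symm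
  have hbd : b ≠ d := fun h => hd'.1 h.symm
  have had : a ≠ d := fun h => hd'.2.1 h.symm
  -- choose the two other directions
  obtain ⟨u2, hu2, hacu, hbdu⟩ := par_choose
    (hpar a ha c hc b hb d hd hac hab had hbc.symm hcd hbd)
  obtain ⟨u3, hu3, hadu, hbcu⟩ := par_choose
    (hpar a ha d hd b hb c hc had hab hac hbd.symm hcd.symm hbc)
  set T := Submodule.span ℝ (Set.range ![ρ a b, u2, u3]) with hT
  have hT1 : ρ a b ∈ T := Submodule.subset_span ⟨0, rfl⟩
  have hT2 : Submodule.span ℝ {u2} ≤ T := by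
    rw [Submodule.span_singleton_le_iff_mem]
    exact Submodule.subset_span ⟨1, rfl⟩
  have hT3 : Submodule.span ℝ {u3} ≤ T := by
    rw [Submodule.span_singleton_le_iff_mem]
    exact Submodule.subset_span ⟨2, rfl⟩
  obtain ⟨tc, _, ecd⟩ := (hpar c hc d hd a ha b hb hcd hac.symm hbc.symm had.symm hbd.symm hab).ne
    hcd0 hab0
  have hTcd : ρ c d ∈ T := by
    rw [ecd]; exact T.smul_mem _ hT1
  have hall : ∀ x ∈ N, ∀ y ∈ N, x ≠ y → ρ x y ∈ T := by
    intro x hx y hy hxy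
    by_cases h0 : ρ x y = 0
    · rw [h0]; exact T.zero_mem
    by_cases h1 : x ≠ a ∧ x ≠ b ∧ y ≠ a ∧ y ≠ b
    · obtain ⟨q1, q2, q3, q4⟩ := h1
      obtain ⟨t, _, e1⟩ := (hpar x hx y hy a ha b hb hxy q1 q2 q3 q4 hab).ne h0 hab0
      rw [e1]; exact T.smul_mem _ hT1
    by_cases h2 : x ≠ c ∧ x ≠ d ∧ y ≠ c ∧ y ≠ d
    · obtain ⟨q1, q2, q3, q4⟩ := h2
      obtain ⟨t, _, e1⟩ := (hpar x hx y hy c hc d hd hxy q1 q2 q3 q4 hcd).ne h0 hcd0
      rw [e1]; exact T.smul_mem _ hTcd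
    have h3 : (x = a ∧ y = c) ∨ (x = c ∧ y = a) ∨ (x = a ∧ y = d) ∨ (x = d ∧ y = a) ∨
        (x = b ∧ y = c) ∨ (x = c ∧ y = b) ∨ (x = b ∧ y = d) ∨ (x = d ∧ y = b) := by
      grind
    rcases h3 with ⟨e, f⟩ | ⟨e, f⟩ | ⟨e, f⟩ | ⟨e, f⟩ | ⟨e, f⟩ | ⟨e, f⟩ | ⟨e, f⟩ | ⟨e, f⟩
    · rw [e, f]; exact hT2 hacu
    · rw [e, f, hs]; exact hT2 hacu
    · rw [e, f]; exact hT3 hadu
    · rw [e, f, hs]; exact hT3 hadu
    · rw [e, f]; exact hT3 hbcu
    · rw [e, f, hs]; exact hT3 hbcu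
    · rw [e, f]; exact hT2 hbdu
    · rw [e, f, hs]; exact hT2 hbdu
  have hstarT : ∀ x ∈ N, ∀ y ∈ N, x ≠ y → ∃ c : Fin n → ℝ, (∀ w ∈ N, w ≠ x → w ≠ y → c w ≠ 0) ∧
      c x = 0 ∧ c y = 0 ∧ ∑ w ∈ N, c w • ρ v w ∈ T := by
    intro x hx y hy hxy
    obtain ⟨c, q1, q2, q3⟩ := star hs hstr hv (herase x hx y hy hxy).1 (herase x hx y hy hxy).2
    refine ⟨c, fun w hw h1 h2 => q1 w (mem_erase.2 ⟨h2, mem_erase.2 ⟨h1, hw⟩⟩),
      q2 x (fun h => (mem_erase.1 (mem_erase.1 h).2).1 rfl), q2 y (fun h => (mem_erase.1 h).1 rfl), ?_⟩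
    refine (Submodule.span_le.2 ?_) q3
    rintro z ⟨a', ha', b', hb', hab', rfl⟩
    exact hall a' ((herase x hx y hy hxy).1 ha') b' ((herase x hx y hy hxy).1 hb') hab'
  obtain ⟨c1, p1, p1a, p1b, p1T⟩ := hstarT a ha b hb hab
  obtain ⟨c2, p2, p2a, p2c, p2T⟩ := hstarT a ha c hc hac
  obtain ⟨c3, p3, p3b, p3c, p3T⟩ := hstarT b hb c hc hbc
  have hInd : Ind3 (∑ w ∈ N, c1 w • ρ v w) (∑ w ∈ N, c2 w • ρ v w) (∑ w ∈ N, c3 w • ρ v w) := by
    intro α β γ h
    rw [smul_sum, smul_sum, smul_sum, ← sum_add_distrib, ← sum_add_distrib] at h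
    have h1 : ∑ w ∈ N, (α * c1 w + β * c2 w + γ * c3 w) • ρ v w = 0 := by
      rw [← h]
      refine sum_congr rfl fun w _ => ?_
      rw [add_smul, add_smul, smul_smul, smul_smul, smul_smul]
    rw [← sum_coe_sort N (fun w => (α * c1 w + β * c2 w + γ * c3 w) • ρ v w)] at h1
    have h2 := (Fintype.linearIndependent_iff.1 hI) (fun w => α * c1 w + β * c2 w + γ * c3 w) h1
    have ea := h2 ⟨a, ha⟩
    have eb := h2 ⟨b, hb⟩
    have ec := h2 ⟨c, hc⟩
    simp only [p1a, p2a, mul_zero, zero_add] at ea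
    simp only [p1b, p3b, mul_zero, zero_add, add_zero] at eb
    simp only [p2c, p3c, mul_zero, add_zero] at ec
    exact ⟨(mul_eq_zero.1 ec).resolve_right (p1 c hc hac.symm hbc.symm),
      (mul_eq_zero.1 eb).resolve_right (p2 b hb hab.symm hbc),
      (mul_eq_zero.1 ea).resolve_right (p3 a ha hab hac)⟩
  have hI3 : Ind3 (ρ a b) u2 u3 := ind3_of_span hInd p1T p2T p3T
  -- the four cases
  have hcda : ρ c d = tc • ρ a b := ecd
  have htc : tc ≠ 0 := by
    rintro rfl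
    rw [zero_smul] at ecd
    exact hcd0 ecd
  rcases hu2 with e2 | e2 <;> rcases hu3 with e3 | e3 <;> rw [e2, e3] at hI3
  · -- star at a
    exact opp hs hstr hcard hpar ha hb hc hd hab hac had hbc hbd hcd hI3 hcd0
  · -- ac, bc: star at c, edges cd, ca, cb
    refine opp hs hstr hcard hpar hc hd ha hb hcd hac.symm hbc.symm had.symm hbd.symm hab ?_ hab0
    intro α β γ h
    rw [hcda, smul_smul, hs c a, hs c b] at h
    have := hI3 _ _ _ h
    exact ⟨(mul_eq_zero.1 this.1).resolve_right htc, this.2⟩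
  · -- bd, ad: star at d, edges dc, da, db
    refine opp hs hstr hcard hpar hd hc ha hb hcd.symm had.symm hbd.symm hac.symm hbc.symm hab ?_ hab0
    intro α β γ h
    rw [hs d c, hcda, smul_smul, hs d a, hs d b] at h
    have := hI3 (α * tc) γ β (by rw [← h]; abel)
    exact ⟨(mul_eq_zero.1 this.1).resolve_right htc, this.2.2, this.2.1⟩
  · -- bd, bc: star at b, edges ba, bc, bd
    refine opp hs hstr hcard hpar hb ha hc hd hab.symm hbc hbd hac had hcd ?_ hcd0
    intro α β γ h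
    rw [hs b a] at h
    have := hI3 α γ β (by rw [← h]; abel)
    exact ⟨this.1, this.2.2, this.2.1⟩

/-! ### the rigidity matrix -/

theorem row_symm (k : ℕ) (p : Fin n → Fin k → ℝ) (a b : Fin n) : rowR k p a b = rowR k p b a := by
  funext u i
  unfold rowR
  by_cases h1 : u = a
  · by_cases h2 : u = b
    · rw [if_pos h1, if_pos h2, ← h1, ← h2]
    · rw [if_pos h1, if_neg h2, if_pos h1]
  · by_cases h2 : u = b
    · rw [if_neg h1, if_pos h2, if_pos h2]
    · rw [if_neg h1, if_neg h2, if_neg h2, if_neg h1]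

/-- row of an edge -/
def rr (k : ℕ) (p : Fin n → Fin k → ℝ) (e : Fin n × Fin n) : Fin n → Fin k → ℝ :=
  rowR k p e.1 e.2

theorem rr_ed (k : ℕ) (p : Fin n → Fin k → ℝ) (a b : Fin n) : rr k p (ed a b) = rowR k p a b :=
  ed_rho (ρ := fun a b => rowR k p a b) (row_symm k p) a b

theorem ed_comm (a b : Fin n) : ed a b = ed b a := by
  unfold ed
  rw [min_comm, max_comm]

theorem ed_not_mem_self {E : Finset (Fin n × Fin n)} (hE : Edges E) (v : Fin n) : v ∉ nb E v := by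
  intro h
  rw [nb, mem_filter] at h
  have := hE _ h.2
  simp [ed] at this

theorem E_eq {E : Finset (Fin n × Fin n)} (hE : Edges E) (v : Fin n) :
    (E : Set (Fin n × Fin n)) = ↑(del E v) ∪ ↑((nb E v).image (ed v)) := by
  ext e
  simp only [Finset.mem_coe, Set.mem_union, mem_image, del, nb, mem_filter, mem_univ, true_and]
  constructor
  · intro he
    have hlt := hE e he
    by_cases h1 : e.1 = v
    · right
      refine ⟨e.2, ?_, ?_⟩
      · rw [← h1]; unfold ed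
        rw [min_eq_left hlt.le, max_eq_right hlt.le]
        exact he
      · rw [← h1]; unfold ed
        rw [min_eq_left hlt.le, max_eq_right hlt.le]
    · by_cases h2 : e.2 = v
      · right
        refine ⟨e.1, ?_, ?_⟩
        · rw [← h2]; unfold ed
          rw [min_eq_right hlt.le, max_eq_left hlt.le]
          exact he
        · rw [← h2]; unfold ed
          rw [min_eq_right hlt.le, max_eq_left hlt.le]
      · left
        exact ⟨he, h1, h2⟩
  · rintro (h | ⟨w, hw, rfl⟩)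
    · exact h.1
    · exact hw

theorem E_disj {E : Finset (Fin n × Fin n)} (v : Fin n) :
    Disjoint (↑(del E v) : Set (Fin n × Fin n)) ↑((nb E v).image (ed v)) := by
  rw [Set.disjoint_left]
  intro e he he2
  rw [Finset.mem_coe, mem_image] at he2
  obtain ⟨w, _, rfl⟩ := he2
  rw [Finset.mem_coe, del, mem_filter] at he
  unfold ed at he
  rcases le_total v w with h | h
  · exact he.2.1 (min_eq_left h)
  · exact he.2.2 (max_eq_left h)

/-- the span of the rows avoiding `v` -/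
abbrev UU (k : ℕ) (p : Fin n → Fin k → ℝ) (E : Finset (Fin n × Fin n)) (v : Fin n) :
    Submodule ℝ (Fin n → Fin k → ℝ) := Submodule.span ℝ (rr k p '' (↑(del E v)))

/-- rows modulo `UU` -/
def rho (k : ℕ) (p : Fin n → Fin k → ℝ) (E : Finset (Fin n × Fin n)) (v : Fin n) (a b : Fin n) :
    (Fin n → Fin k → ℝ) ⧸ UU k p E v := Submodule.mkQ (UU k p E v) (rowR k p a b)

theorem rho_symm (k : ℕ) (p : Fin n → Fin k → ℝ) (E : Finset (Fin n × Fin n)) (v : Fin n)
    (a b : Fin n) : rho k p E v a b = rho k p E v b a := by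
  unfold rho
  rw [row_symm]

theorem rho_str (hK : S_K) (p : Fin n → Fin k → ℝ) (hp : GP k p) (E : Finset (Fin n × Fin n))
    (v : Fin n) : Str k (rho k p E v) := by
  intro W hW
  obtain ⟨ω, h1, h2⟩ := hK k n p hp W hW
  refine ⟨ω, h1, ?_⟩
  have h3 := congrArg (Submodule.mkQ (UU k p E v)) h2
  rw [map_sum, map_zero] at h3
  rw [← h3]
  refine sum_congr rfl fun e _ => ?_
  rw [map_smul]
  rfl

theorem rind_on {E : Finset (Fin n × Fin n)} {p : Fin n → Fin k → ℝ} :
    RInd k E p ↔ LinearIndepOn ℝ (rr k p) (↑E : Set (Fin n × Fin n)) := Iff.rfl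

theorem rho_star {E : Finset (Fin n × Fin n)} (hE : Edges E) {p : Fin n → Fin k → ℝ}
    (hI : RInd k E p) (v : Fin n) :
    LinearIndependent ℝ (fun w : ↥(nb E v) => rho k p E v v w) := by
  rw [rind_on, E_eq hE v, linearIndepOn_union_iff_quotient (E_disj v)] at hI
  have h2 := hI.2
  have h3 : LinearIndependent ℝ (fun w : ↥(nb E v) =>
      ((Submodule.mkQ (UU k p E v)) ∘ rr k p) (ed v w)) := by
    refine LinearIndependent.comp h2 (fun w : ↥(nb E v) =>
      (⟨ed v w, Finset.mem_coe.2 (mem_image_of_mem _ w.2)⟩ :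
        ↥(↑((nb E v).image (ed v)) : Set (Fin n × Fin n)))) ?_
    intro a b hab
    have h4 : ed v a = ed v b := congrArg Subtype.val hab
    exact Subtype.ext (ed_inj (ed_not_mem_self hE v) a.2 b.2 h4)
  have h4 : (fun w : ↥(nb E v) => rho k p E v v w) = (fun w : ↥(nb E v) =>
      ((Submodule.mkQ (UU k p E v)) ∘ rr k p) (ed v w)) := by
    funext w
    show Submodule.mkQ (UU k p E v) (rowR k p v w) = Submodule.mkQ (UU k p E v) (rr k p (ed v w))
    rw [rr_ed]
  rw [h4]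
  exact h3

theorem rho_zero_iff {k : ℕ} {p : Fin n → Fin k → ℝ} {E : Finset (Fin n × Fin n)} {v a b : Fin n} :
    rho k p E v a b = 0 ↔ rr k p (ed a b) ∈ UU k p E v := by
  rw [rr_ed]
  unfold rho
  rw [Submodule.mkQ_apply, Submodule.Quotient.mk_eq_zero]

theorem not_mem_del {k : ℕ} {p : Fin n → Fin k → ℝ} {E : Finset (Fin n × Fin n)} {v a b : Fin n}
    (h : rho k p E v a b ≠ 0) : ed a b ∉ del E v := by
  intro h1
  apply h
  rw [rho_zero_iff]
  exact Submodule.subset_span ⟨_, Finset.mem_coe.2 h1, rfl⟩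

theorem not_mem_E {k : ℕ} {p : Fin n → Fin k → ℝ} {E : Finset (Fin n × Fin n)} (hE : Edges E)
    {v a b : Fin n} (ha : a ∈ nb E v) (hb : b ∈ nb E v) (h : rho k p E v a b ≠ 0) :
    ed a b ∉ E := by
  intro h1
  apply not_mem_del h
  have hav : a ≠ v := fun h => ed_not_mem_self hE v (h ▸ ha)
  have hbv : b ≠ v := fun h => ed_not_mem_self hE v (h ▸ hb)
  rw [del, mem_filter]
  refine ⟨h1, ?_, ?_⟩
  · unfold ed
    rcases le_total a b with h | h
    · simpa [min_eq_left h] using hav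
    · simpa [min_eq_right h] using hbv
  · unfold ed
    rcases le_total a b with h | h
    · simpa [max_eq_right h] using hbv
    · simpa [max_eq_left h] using hav

theorem del_ind {E : Finset (Fin n × Fin n)} {p : Fin n → Fin k → ℝ} (hI : RInd k E p) (v : Fin n) :
    LinearIndepOn ℝ (rr k p) (↑(del E v) : Set (Fin n × Fin n)) := by
  rw [rind_on] at hI
  exact hI.mono (Finset.coe_subset.2 (filter_subset _ _))

theorem ed_ne {a b c d : Fin n} (hac : a ≠ c) (had : a ≠ d) : ed a b ≠ ed c d := by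
  intro h
  simp only [ed, Prod.mk.injEq] at h
  rcases le_total a b with h1 | h1 <;> rcases le_total c d with h2 | h2
  · rw [min_eq_left h1, min_eq_left h2] at h
    exact hac h.1
  · rw [min_eq_left h1, min_eq_right h2] at h
    exact had h.1
  · rw [max_eq_left h1, max_eq_right h2] at h
    exact had h.2
  · rw [max_eq_left h1, max_eq_left h2] at h
    exact hac h.2

end RSh

open RSh

theorem RS2 (hK : S_K) : S_RS2 := by
  intro k n hk E hE p hp hI v hcard
  obtain ⟨W, hW, hWc⟩ := Finset.exists_subset_card_eq (s := nb E v) (n := k + 1) (by omega)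
  obtain ⟨a, ha, b, hb, hab, h0⟩ := nonloop (rho_symm k p E v) (rho_str hK p hp E v)
    (ed_not_mem_self hE v) (rho_star hE hI v) hW hWc
  refine ⟨a, hW ha, b, hW hb, hab, not_mem_E hE (hW ha) (hW hb) h0, ?_⟩
  rw [rind_on, Finset.coe_insert, linearIndepOn_insert (by
    rw [Finset.mem_coe]; exact not_mem_del h0)]
  refine ⟨del_ind hI v, fun h => h0 ?_⟩
  rw [rho_zero_iff]
  exact h

theorem RS3 (hK : S_K) : S_RS3 := by
  intro k n hk E hE p hp hI v hcard
  obtain ⟨a, ha, b, hb, c, hc, d, hd, hab, hac, had, hbc, hbd, hcd, hnp⟩ :=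
    abs3 (rho_symm k p E v) (rho_str hK p hp E v) (ed_not_mem_self hE v) (rho_star hE hI v) hcard
  have hab0 : rho k p E v a b ≠ 0 := fun h => hnp (Or.inl ⟨0, by rw [h, zero_smul]⟩)
  have hcd0 : rho k p E v c d ≠ 0 := fun h => hnp (Or.inr ⟨0, by rw [h, zero_smul]⟩)
  refine ⟨a, ha, b, hb, c, hc, d, hd, hab, hac, had, hbc, hbd, hcd, not_mem_E hE ha hb hab0,
    not_mem_E hE hc hd hcd0, ?_⟩
  have h1 : LinearIndepOn ℝ (rr k p) (insert (ed c d) (↑(del E v) : Set (Fin n × Fin n))) := by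
    rw [linearIndepOn_insert (by rw [Finset.mem_coe]; exact not_mem_del hcd0)]
    refine ⟨del_ind hI v, fun h => hcd0 ?_⟩
    rw [rho_zero_iff]
    exact h
  rw [rind_on, Finset.coe_insert, Finset.coe_insert, linearIndepOn_insert]
  · refine ⟨h1, fun h => hnp (Or.inl ?_)⟩
    rw [Set.image_insert_eq, Submodule.mem_span_insert] at h
    obtain ⟨t, z, hz, h2⟩ := h
    refine ⟨t, ?_⟩
    have h3 := congrArg (Submodule.mkQ (UU k p E v)) h2
    rw [map_add, map_smul, rr_ed, rr_ed] at h3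
    have h4 : Submodule.mkQ (UU k p E v) z = 0 := by
      rw [Submodule.mkQ_apply, Submodule.Quotient.mk_eq_zero]
      exact hz
    rw [h4, add_zero] at h3
    exact h3
  · intro h
    rcases h with h | h
    · exact ed_ne hac had h
    · exact not_mem_del hab0 (Finset.mem_coe.1 h)

end Pool.Agent.H176RC
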