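import Pool.Agent.H176RC.C0
import Pool.Agent.H176RC.C1
import Pool.Agent.H176RC.CX
import Pool.Agent.H176RC.FIN
import Pool.Agent.H176RC.GP
import Pool.Agent.H176RC.K
import Pool.Agent.H176RC.MAIN
import Pool.Agent.H176RC.MC
import Pool.Agent.H176RC.MR
import Pool.Agent.H176RC.MX
import Pool.Agent.H176RC.NZ
import Pool.Agent.H176RC.RS

set_option autoImplicit false

/-! Assembly: `R_k`-independence implies `C_k^{k-1}`-independence (degree condition). -/

namespace Pool.Agent.H176RC

theorem mGP : S_GP := GPthm MR NZ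
theorem mMX : S_MX := MX K mGP
theorem mMAIN : S_MAIN := MAIN mGP (RS2 K) (RS3 K) (C0 MC NZ) (C1 MC NZ) (CX MC NZ) mMX
theorem mFIN : S_FIN := FIN mMAIN MC

end Pool.Agent.H176RC
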